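import Pool.Agent.H514.TR.Stm
import Pool.Graph.R_pool_sql_team_seeded_efc1946e.K1H79.SX.Triv

/-! # A weak bound for the class number (the proof is the one of `K1H79.SX.t_TRIV`)

Owner helper514. -/

set_option autoImplicit false

namespace Pool.Agent.H514.TR

open NumberField Pool.Agent.K1H79.SX Pool.Agent.TH847.LS Pool.Agent.TH847.LG
open scoped Classical nonZeroDivisors

theorem t_CLT : S_CLT := by
  intro m
  obtain ⟨C1, hC1, h1⟩ := Pool.Agent.K1H33.RM.t_RM m (1 / 2) (by norm_num)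
  obtain ⟨C2, hC2, h2⟩ := one_add_log_pow_le m
  refine ⟨C2 * C1 * (2 ^ m + 2) ^ 2, by positivity, ?_⟩
  intro F _ _ hF
  have hD1 : (1 : ℝ) ≤ |(discr F : ℝ)| := by
    have := Int.one_le_abs (discr_ne_zero F)
    exact_mod_cast this
  obtain ⟨D, hD⟩ : ∃ D : ℝ, D = |(discr F : ℝ)| := ⟨_, rfl⟩
  rw [← hD] at hD1 ⊢
  have hs1 : 1 ≤ √D := Real.one_le_sqrt.2 hD1
  obtain ⟨N, hN⟩ : ∃ N : ℕ, N = ⌊(2 : ℝ) ^ m * √D⌋₊ + 1 := ⟨_, rfl⟩
  have hN1 : 2 ^ m * √D < N := by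
    rw [hN]
    push_cast
    exact Nat.lt_floor_add_one _
  have hN2 : (N : ℝ) ≤ (2 ^ m + 2) * √D := by
    rw [hN]
    push_cast
    have := Nat.floor_le (show 0 ≤ (2 : ℝ) ^ m * √D by positivity)
    nlinarith
  have hN3 : (1 : ℝ) ≤ N := by
    rw [hN]
    push_cast
    have : (0 : ℝ) ≤ (⌊(2 : ℝ) ^ m * √D⌋₊ : ℝ) := Nat.cast_nonneg _
    linarith
  have hcl := Pool.Agent.TH847.LG.class_le_n hF N (by rw [← hD]; exact hN1)
  have h4 : ∑ J ∈ FI F N, (1 + Real.log ((N : ℝ) / Ideal.absNorm J)) ^ m ≤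
      ∑ _J ∈ FI F N, C2 * (N : ℝ) ^ (1 / 2 : ℝ) := by
    apply Finset.sum_le_sum
    intro J hJ
    rw [mem_FI] at hJ
    have hJ1 : (1 : ℝ) ≤ Ideal.absNorm J := by exact_mod_cast absNorm_pos hJ.2
    have hJ2 : (Ideal.absNorm J : ℝ) ≤ N := by exact_mod_cast hJ.1
    have h5 : (1 : ℝ) ≤ (N : ℝ) / Ideal.absNorm J := by
      rw [le_div_iff₀ (by linarith)]
      linarith
    have h6 : (N : ℝ) / Ideal.absNorm J ≤ N := div_le_self (by linarith) hJ1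
    calc (1 + Real.log ((N : ℝ) / Ideal.absNorm J)) ^ m ≤ C2 * ((N : ℝ) / Ideal.absNorm J) ^ (1 / 2 : ℝ) := h2 _ h5
      _ ≤ C2 * (N : ℝ) ^ (1 / 2 : ℝ) := by
          apply mul_le_mul_of_nonneg_left _ hC2.le
          exact Real.rpow_le_rpow (by linarith) h6 (by norm_num)
  rw [Finset.sum_const, nsmul_eq_mul] at h4
  have h7 := card_FI_le hC1 (h1 F hF) N
  have h8 : (N : ℝ) ^ (1 / 2 : ℝ) * (N : ℝ) ^ (1 / 2 : ℝ) = N := by
    rw [← Real.rpow_add (by linarith)]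
    norm_num
  have h10 : 0 ≤ C2 * (N : ℝ) ^ (1 / 2 : ℝ) := by positivity
  calc (Nat.card (ClassGroup (𝓞 F)) : ℝ)
      ≤ ((FI F N).card : ℝ) * (C2 * (N : ℝ) ^ (1 / 2 : ℝ)) := hcl.trans h4
    _ ≤ (C1 * ((N : ℝ) * (N : ℝ) ^ (1 / 2 : ℝ))) * (C2 * (N : ℝ) ^ (1 / 2 : ℝ)) :=
        mul_le_mul_of_nonneg_right h7 h10
    _ = C2 * C1 * ((N : ℝ) * ((N : ℝ) ^ (1 / 2 : ℝ) * (N : ℝ) ^ (1 / 2 : ℝ))) := by ring
    _ = C2 * C1 * (N : ℝ) ^ 2 := by rw [h8]; ring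
    _ ≤ C2 * C1 * ((2 ^ m + 2) * √D) ^ 2 := by
        apply mul_le_mul_of_nonneg_left _ (by positivity)
        exact pow_le_pow_left₀ (by linarith) hN2 2
    _ = C2 * C1 * (2 ^ m + 2) ^ 2 * D := by
        rw [mul_pow, Real.sq_sqrt (by linarith)]
        ring

end Pool.Agent.H514.TR
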