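import Pool.Agent.H514.TR.Stm
import Pool.Graph.R_pool_sql_team_seeded_efc1946e.K1H33.RM.Cnt

/-! # The chain of scales (helper895 for helper514) -/

set_option autoImplicit false

namespace Pool.Agent.H514.TR

open NumberField Pointwise Pool.Agent.K1H79.TOR Pool.Agent.TH847.LS
open scoped Classical nonZeroDivisors

namespace GALH

open Finset in
theorem card_FI_le {C e : ℝ} (hC : 0 < C) (he : 0 ≤ e) {F : Type} [Field F] [NumberField F]
    (h : ∀ k : ℕ, 1 ≤ k → (Nat.card {J : Ideal (𝓞 F) // Ideal.absNorm J = k} : ℝ) ≤ C * (k : ℝ) ^ e)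
    (N : ℕ) : ((FI F N).card : ℝ) ≤ C * ((N : ℝ) * (N : ℝ) ^ e) := by
  have h2 : (FI F N).card = ∑ k ∈ Icc 1 N, ((FI F N).filter (fun J => Ideal.absNorm J = k)).card := by
    apply Finset.card_eq_sum_card_fiberwise
    intro J hJ
    rw [Finset.mem_coe, mem_FI] at hJ
    rw [Finset.mem_coe, Finset.mem_Icc]
    exact ⟨absNorm_pos hJ.2, hJ.1⟩
  rw [h2]
  push_cast
  have h3 : ∀ k ∈ Icc 1 N, (((FI F N).filter (fun J => Ideal.absNorm J = k)).card : ℝ) ≤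
      C * (N : ℝ) ^ e := by
    intro k hk
    obtain ⟨hk1, hkN⟩ := Finset.mem_Icc.1 hk
    have hfin : Finite {J : Ideal (𝓞 F) // Ideal.absNorm J = k} :=
      (Ideal.finite_setOfPred_absNorm_eq (S := 𝓞 F) k).to_subtype
    have h4 : ((FI F N).filter (fun J => Ideal.absNorm J = k)).card ≤
        Nat.card {J : Ideal (𝓞 F) // Ideal.absNorm J = k} := by
      rw [← Fintype.card_coe, ← Nat.card_eq_fintype_card]
      exact Nat.card_le_card_of_injective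
        (fun J : {x // x ∈ (FI F N).filter (fun J => Ideal.absNorm J = k)} =>
          (⟨J.1, (Finset.mem_filter.1 J.2).2⟩ : {J : Ideal (𝓞 F) // Ideal.absNorm J = k}))
        (fun a b hab => by
          apply Subtype.ext
          exact congrArg (fun J : {J : Ideal (𝓞 F) // Ideal.absNorm J = k} => J.1) hab)
    calc (((FI F N).filter (fun J => Ideal.absNorm J = k)).card : ℝ)
        ≤ (Nat.card {J : Ideal (𝓞 F) // Ideal.absNorm J = k} : ℝ) := by exact_mod_cast h4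
      _ ≤ C * (k : ℝ) ^ e := h k hk1
      _ ≤ C * (N : ℝ) ^ e := by
          apply mul_le_mul_of_nonneg_left _ hC.le
          exact Real.rpow_le_rpow (Nat.cast_nonneg _) (by exact_mod_cast hkN) he
  calc ∑ k ∈ Icc 1 N, (((FI F N).filter (fun J => Ideal.absNorm J = k)).card : ℝ)
      ≤ ∑ _k ∈ Icc 1 N, C * (N : ℝ) ^ e := Finset.sum_le_sum h3
    _ = C * ((N : ℝ) * (N : ℝ) ^ e) := by
        rw [Finset.sum_const, Nat.card_Icc, nsmul_eq_mul, Nat.add_sub_cancel]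
        ring

theorem one_add_log_pow_le (m : ℕ) (e : ℝ) (he : 0 < e) :
    ∃ C : ℝ, 0 < C ∧ ∀ x : ℝ, 1 ≤ x → (1 + Real.log x) ^ m ≤ C * x ^ e := by
  have hm : (0 : ℝ) < (m : ℝ) + 1 := by positivity
  refine ⟨(1 + (m + 1) / e) ^ m, by positivity, ?_⟩
  intro x hx
  have hx0 : 0 < x := by linarith
  have h1 : Real.log x ≤ (m + 1) / e * x ^ (e / (m + 1) : ℝ) := by
    have h2 := Real.log_le_rpow_div hx0.le (show (0 : ℝ) < e / (m + 1) by positivity)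
    calc Real.log x ≤ x ^ (e / (m + 1) : ℝ) / (e / (m + 1)) := h2
      _ = (m + 1) / e * x ^ (e / (m + 1) : ℝ) := by
          field_simp
  have h3 : (1 : ℝ) ≤ x ^ (e / (m + 1) : ℝ) := Real.one_le_rpow hx (by positivity)
  have h4 : 1 + Real.log x ≤ (1 + (m + 1) / e) * x ^ (e / (m + 1) : ℝ) := by
    linarith
  have h5 : 0 ≤ Real.log x := Real.log_nonneg hx
  calc (1 + Real.log x) ^ m ≤ ((1 + (m + 1) / e) * x ^ (e / (m + 1) : ℝ)) ^ m := by
        gcongr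
    _ = (1 + (m + 1) / e) ^ m * x ^ (e / (m + 1) * m : ℝ) := by
        rw [mul_pow, ← Real.rpow_natCast (x ^ (e / (m + 1) : ℝ)) m, ← Real.rpow_mul hx0.le]
    _ ≤ (1 + (m + 1) / e) ^ m * x ^ e := by
        apply mul_le_mul_of_nonneg_left _ (by positivity)
        apply Real.rpow_le_rpow_of_exponent_le hx
        rw [div_mul_eq_mul_div, div_le_iff₀ hm]
        nlinarith

theorem cnt (n : ℕ) (ε : ℝ) (hε : 0 < ε) : ∃ C : ℝ, 0 < C ∧ ∀ (M : Type) [Field M] [NumberField M],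
    Module.finrank ℚ M = n → ∃ N : ℕ, 2 ^ n * √|(discr M : ℝ)| < N ∧
    ∑ J ∈ FI M N, (1 + Real.log ((N : ℝ) / Ideal.absNorm J)) ^ n ≤
      C * |(discr M : ℝ)| ^ (1 / 2 + ε : ℝ) := by
  obtain ⟨C1, hC1, h1⟩ := Pool.Agent.K1H33.RM.main n ε hε
  obtain ⟨C2, hC2, h2⟩ := one_add_log_pow_le n ε hε
  refine ⟨C1 * C2 * ((2 : ℝ) ^ n + 2) ^ (1 + 2 * ε), by positivity, ?_⟩
  intro M _ _ hM
  have hD1 : (1 : ℝ) ≤ |(discr M : ℝ)| := by
    have := Int.one_le_abs (discr_ne_zero M)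
    exact_mod_cast this
  obtain ⟨D, hD⟩ : ∃ D : ℝ, D = |(discr M : ℝ)| := ⟨_, rfl⟩
  rw [← hD] at hD1 ⊢
  have hs1 : 1 ≤ √D := Real.one_le_sqrt.2 hD1
  obtain ⟨N, hN⟩ : ∃ N : ℕ, N = ⌊(2 : ℝ) ^ n * √D⌋₊ + 1 := ⟨_, rfl⟩
  have hN1 : 2 ^ n * √D < N := by
    rw [hN]
    push_cast
    exact Nat.lt_floor_add_one _
  have hN2 : (N : ℝ) ≤ (2 ^ n + 2) * √D := by
    rw [hN]
    push_cast
    have := Nat.floor_le (show 0 ≤ (2 : ℝ) ^ n * √D by positivity)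
    nlinarith
  have hN3 : (1 : ℝ) ≤ N := by
    rw [hN]
    push_cast
    have : (0 : ℝ) ≤ (⌊(2 : ℝ) ^ n * √D⌋₊ : ℝ) := Nat.cast_nonneg _
    linarith
  refine ⟨N, hN1, ?_⟩
  have h4 : ∑ J ∈ FI M N, (1 + Real.log ((N : ℝ) / Ideal.absNorm J)) ^ n ≤
      ∑ _J ∈ FI M N, C2 * (N : ℝ) ^ ε := by
    apply Finset.sum_le_sum
    intro J hJ
    rw [mem_FI] at hJ
    have hJ1 : (1 : ℝ) ≤ Ideal.absNorm J := by exact_mod_cast absNorm_pos hJ.2
    have hJ2 : (Ideal.absNorm J : ℝ) ≤ N := by exact_mod_cast hJ.1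
    have h5 : (1 : ℝ) ≤ (N : ℝ) / Ideal.absNorm J := by
      rw [le_div_iff₀ (by linarith)]
      linarith
    have h6 : (N : ℝ) / Ideal.absNorm J ≤ N := div_le_self (by linarith) hJ1
    calc (1 + Real.log ((N : ℝ) / Ideal.absNorm J)) ^ n ≤ C2 * ((N : ℝ) / Ideal.absNorm J) ^ ε := h2 _ h5
      _ ≤ C2 * (N : ℝ) ^ ε := by
          apply mul_le_mul_of_nonneg_left _ hC2.le
          exact Real.rpow_le_rpow (by linarith) h6 hε.le
  rw [Finset.sum_const, nsmul_eq_mul] at h4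
  have h7 := card_FI_le hC1 hε.le (h1 M hM) N
  have h8 : (N : ℝ) * (N : ℝ) ^ ε * (N : ℝ) ^ ε = (N : ℝ) ^ (1 + 2 * ε) := by
    rw [show 1 + 2 * ε = 1 + ε + ε by ring, Real.rpow_add (by linarith), Real.rpow_add (by linarith),
      Real.rpow_one]
  have h10 : 0 ≤ C2 * (N : ℝ) ^ ε := by positivity
  calc ∑ J ∈ FI M N, (1 + Real.log ((N : ℝ) / Ideal.absNorm J)) ^ n
      ≤ ((FI M N).card : ℝ) * (C2 * (N : ℝ) ^ ε) := h4
    _ ≤ (C1 * ((N : ℝ) * (N : ℝ) ^ ε)) * (C2 * (N : ℝ) ^ ε) :=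
        mul_le_mul_of_nonneg_right h7 h10
    _ = C1 * C2 * ((N : ℝ) * (N : ℝ) ^ ε * (N : ℝ) ^ ε) := by ring
    _ = C1 * C2 * (N : ℝ) ^ (1 + 2 * ε) := by rw [h8]
    _ ≤ C1 * C2 * ((2 ^ n + 2) * √D) ^ (1 + 2 * ε) := by
        apply mul_le_mul_of_nonneg_left _ (by positivity)
        exact Real.rpow_le_rpow (by linarith) hN2 (by linarith)
    _ = C1 * C2 * ((2 : ℝ) ^ n + 2) ^ (1 + 2 * ε) * D ^ (1 / 2 + ε) := by
        rw [Real.mul_rpow (by positivity) (by positivity), Real.sqrt_eq_rpow, ← Real.rpow_mul (by linarith)]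
        rw [show 1 / 2 * (1 + 2 * ε) = 1 / 2 + ε by ring]
        ring

/-- the number of ramified primes -/
theorem omega_le (d : ℤ) (hd : d ≠ 0) : (d.natAbs.primeFactors.card : ℝ) ≤ 2 * Real.log |(d : ℝ)| := by
  have h0 : d.natAbs ≠ 0 := Int.natAbs_ne_zero.2 hd
  have h1 : 2 ^ d.natAbs.primeFactors.card ≤ d.natAbs := by
    refine le_trans ?_ (Nat.le_of_dvd (Nat.pos_of_ne_zero h0) (Nat.prod_primeFactors_dvd d.natAbs))
    rw [← Finset.prod_const]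
    exact Finset.prod_le_prod' fun p hp => (Nat.prime_of_mem_primeFactors hp).two_le
  have h2 : (2 : ℝ) ^ d.natAbs.primeFactors.card ≤ |(d : ℝ)| := by
    have h3 : ((2 ^ d.natAbs.primeFactors.card : ℕ) : ℝ) ≤ (d.natAbs : ℝ) := by exact_mod_cast h1
    rw [Nat.cast_natAbs, Int.cast_abs] at h3
    push_cast at h3
    exact h3
  have h4 := Real.log_le_log (by positivity) h2
  rw [Real.log_pow] at h4
  have h5 := Real.log_two_gt_d9
  have h6 : (0 : ℝ) ≤ (d.natAbs.primeFactors.card : ℝ) := Nat.cast_nonneg _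
  nlinarith

open Filter Topology in
/-- the constants and the inequalities between real numbers -/
theorem real_part (n l m : ℕ) (A : ℝ) (hA : 1 ≤ A) : ∃ κ E a D0 : ℝ, 0 < κ ∧ 1 ≤ E ∧ 0 < a ∧
    1 ≤ D0 ∧ ∀ D : ℝ, D0 ≤ D → 2 * Real.log D ≤ 1 / 2 * D ^ (κ * a / 200) ∧
    ∀ j ≤ m, ∀ t t' X : ℝ, t = D ^ (κ * E ^ j) → t' = D ^ (κ * E ^ (j + 1)) → X = t ^ a →
      1 ≤ t ∧ ((n : ℝ) + 1) * t ≤ t' ∧ ((n : ℝ) ^ 2 + t) ^ n ≤ t' ∧
      (2 * t') ^ (n * (n - 1)) < D ∧ 1 < X ∧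
      A * (1 + (n : ℝ) ^ 2 * Real.log (2 * t)) ≤ Real.log X ∧ ((150 * X) ^ l) ^ n ≤ t' ∧
      D ^ (κ * a / 200) ≤ X ^ (1 / 200 : ℝ) := by
  obtain ⟨a, ha⟩ : ∃ a : ℝ, a = A * (1 + 2 * (n : ℝ) ^ 2) := ⟨_, rfl⟩
  have hn0 : (0 : ℝ) ≤ n := Nat.cast_nonneg n
  have hl0 : (0 : ℝ) ≤ l := Nat.cast_nonneg l
  have ha1 : 1 ≤ a := by
    rw [ha]
    nlinarith [sq_nonneg (n : ℝ)]
  have ha0 : 0 < a := by linarith
  obtain ⟨E, hE⟩ : ∃ E : ℝ, E = 2 + 2 * n + (1 + a) * (l * n : ℕ) := ⟨_, rfl⟩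
  have hln0 : (0 : ℝ) ≤ ((l * n : ℕ) : ℝ) := Nat.cast_nonneg _
  have hE1 : 1 ≤ E := by
    rw [hE]
    have : 0 ≤ (1 + a) * ((l * n : ℕ) : ℝ) := mul_nonneg (by linarith) hln0
    linarith
  have hE0 : 0 < E := by linarith
  obtain ⟨P, hP⟩ : ∃ P : ℕ, P = n * (n - 1) := ⟨_, rfl⟩
  obtain ⟨κ, hκ⟩ : ∃ κ : ℝ, κ = 1 / (4 * ((P : ℝ) + 1) * E ^ (m + 1)) := ⟨_, rfl⟩
  have hEm : 0 < E ^ (m + 1) := pow_pos hE0 _
  have hP0 : (0 : ℝ) ≤ P := Nat.cast_nonneg P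
  have hκ0 : 0 < κ := by
    rw [hκ]
    positivity
  have hκP : κ * E ^ (m + 1) * P ≤ 1 / 4 := by
    have h1 : κ * E ^ (m + 1) * (P + 1) = 1 / 4 := by
      rw [hκ]
      field_simp
    nlinarith [mul_pos hκ0 hEm]
  obtain ⟨t0, ht0⟩ : ∃ t0 : ℝ, t0 = 150 + (n : ℝ) ^ 2 + n := ⟨_, rfl⟩
  have hη : 0 < κ * a / 200 := by positivity
  have hev1 : ∀ᶠ D : ℝ in atTop, t0 ≤ D ^ κ := (tendsto_rpow_atTop hκ0).eventually_ge_atTop t0
  have hev2 : ∀ᶠ D : ℝ in atTop, (4 : ℝ) ^ P < D := eventually_gt_atTop _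
  have hev3 : ∀ᶠ D : ℝ in atTop, 2 * Real.log D ≤ 1 / 2 * D ^ (κ * a / 200) := by
    have h1 := (isLittleO_log_rpow_atTop hη).bound (show (0 : ℝ) < 1 / 4 by norm_num)
    filter_upwards [h1, eventually_ge_atTop 1] with D hD hD1
    rw [Real.norm_of_nonneg (Real.log_nonneg hD1), Real.norm_of_nonneg (Real.rpow_nonneg (by linarith) _)]
      at hD
    linarith
  obtain ⟨D1, hD1⟩ := (hev1.and (hev2.and hev3)).exists_forall_of_atTop
  refine ⟨κ, E, a, max D1 1, hκ0, hE1, ha0, le_max_right _ _, fun D hD => ?_⟩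
  obtain ⟨h1, h2, h3⟩ := hD1 D ((le_max_left _ _).trans hD)
  have hDge : 1 ≤ D := (le_max_right _ _).trans hD
  have hDpos : 0 < D := by linarith
  refine ⟨h3, ?_⟩
  rintro j hj t t' X ht ht' hX
  have hEj : 1 ≤ E ^ j := one_le_pow₀ hE1
  have htt0 : t0 ≤ t := by
    rw [ht]
    refine h1.trans (Real.rpow_le_rpow_of_exponent_le hDge ?_)
    nlinarith
  have htpos : 0 < t := by
    rw [ht]
    exact Real.rpow_pos_of_pos hDpos _
  have ht150 : 150 ≤ t := by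
    rw [ht0] at htt0
    nlinarith [sq_nonneg (n : ℝ)]
  have htE : t' = t ^ E := by
    rw [ht', ht, ← Real.rpow_mul hDpos.le]
    congr 1
    rw [pow_succ]
    ring
  have htt1 : 1 ≤ t := by linarith
  have hpow : ∀ (k : ℕ) (e : ℝ), e ≤ E → (k : ℝ) = e → t ^ k ≤ t' := by
    intro k e he hk
    rw [htE, ← Real.rpow_natCast t k]
    exact Real.rpow_le_rpow_of_exponent_le htt1 (by rw [hk]; exact he)
  have hX1 : t ≤ X := by
    rw [hX]
    calc t = t ^ (1 : ℝ) := (Real.rpow_one t).symm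
      _ ≤ t ^ a := Real.rpow_le_rpow_of_exponent_le htt1 ha1
  have hlogt : 1 ≤ Real.log t := by
    rw [Real.le_log_iff_exp_le htpos]
    have := Real.exp_one_lt_d9
    linarith
  have hE2 : 2 ≤ E := by
    rw [hE]
    have : 0 ≤ (1 + a) * ((l * n : ℕ) : ℝ) := mul_nonneg (by linarith) hln0
    linarith
  have ht't : 0 < t' := by
    rw [ht']
    exact Real.rpow_pos_of_pos hDpos _
  refine ⟨htt1, ?_, ?_, ?_, by linarith, ?_, ?_, ?_⟩
  · have e1 := hpow 2 2 hE2 (by norm_num)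
    rw [ht0] at htt0
    nlinarith [sq_nonneg (n : ℝ)]
  · have e1 : ((n : ℝ) ^ 2 + t) ^ n ≤ (t ^ 2) ^ n := by
      apply pow_le_pow_left₀ (by positivity)
      rw [ht0] at htt0
      nlinarith [sq_nonneg (n : ℝ)]
    refine e1.trans ?_
    rw [← pow_mul]
    refine hpow (2 * n) (2 * n) ?_ (by push_cast; ring)
    rw [hE]
    have : 0 ≤ (1 + a) * ((l * n : ℕ) : ℝ) := mul_nonneg (by linarith) hln0
    linarith
  · rw [← hP]
    have e1 : t' ≤ D ^ (κ * E ^ (m + 1)) := by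
      rw [ht']
      apply Real.rpow_le_rpow_of_exponent_le hDge
      apply mul_le_mul_of_nonneg_left _ hκ0.le
      exact pow_le_pow_right₀ hE1 (by omega)
    have e2 : (2 * t') ^ P ≤ 2 ^ P * D ^ (1 / 4 : ℝ) := by
      rw [mul_pow]
      apply mul_le_mul_of_nonneg_left _ (by positivity)
      calc t' ^ P ≤ (D ^ (κ * E ^ (m + 1))) ^ P := pow_le_pow_left₀ ht't.le e1 _
        _ = D ^ (κ * E ^ (m + 1) * P) := by
            rw [← Real.rpow_natCast, ← Real.rpow_mul hDpos.le]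
        _ ≤ D ^ (1 / 4 : ℝ) := Real.rpow_le_rpow_of_exponent_le hDge hκP
    refine lt_of_le_of_lt e2 ?_
    have e3 : (2 : ℝ) ^ P < D ^ (1 / 2 : ℝ) := by
      have e4 : (2 : ℝ) ^ P = ((4 : ℝ) ^ P) ^ (1 / 2 : ℝ) := by
        rw [← Real.sqrt_eq_rpow]
        symm
        rw [Real.sqrt_eq_iff_mul_self_eq (by positivity) (by positivity), ← mul_pow]
        norm_num
      rw [e4]
      exact Real.rpow_lt_rpow (by positivity) h2 (by norm_num)
    calc (2 : ℝ) ^ P * D ^ (1 / 4 : ℝ) < D ^ (1 / 2 : ℝ) * D ^ (1 / 4 : ℝ) :=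
          mul_lt_mul_of_pos_right e3 (Real.rpow_pos_of_pos hDpos _)
      _ = D ^ (3 / 4 : ℝ) := by
          rw [← Real.rpow_add hDpos]
          norm_num
      _ ≤ D ^ (1 : ℝ) := Real.rpow_le_rpow_of_exponent_le hDge (by norm_num)
      _ = D := Real.rpow_one D
  · rw [hX, Real.log_rpow htpos, Real.log_mul (by norm_num) htpos.ne', ha]
    have e1 : Real.log 2 ≤ 1 := by
      have := Real.log_two_lt_d9
      linarith
    have e2 : 1 + (n : ℝ) ^ 2 * (Real.log 2 + Real.log t) ≤ (1 + 2 * (n : ℝ) ^ 2) * Real.log t := by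
      have e3 : (n : ℝ) ^ 2 * (Real.log 2 + Real.log t) ≤ (n : ℝ) ^ 2 * (Real.log t + Real.log t) :=
        mul_le_mul_of_nonneg_left (by linarith) (sq_nonneg _)
      linarith
    calc A * (1 + (n : ℝ) ^ 2 * (Real.log 2 + Real.log t)) ≤ A * ((1 + 2 * (n : ℝ) ^ 2) * Real.log t) :=
          mul_le_mul_of_nonneg_left e2 (by linarith)
      _ = A * (1 + 2 * (n : ℝ) ^ 2) * Real.log t := by ring
  · have hXpos : 0 < X := by linarith
    have e1 : 150 * X ≤ t ^ (1 + a) := by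
      rw [Real.rpow_add htpos, Real.rpow_one, hX]
      exact mul_le_mul_of_nonneg_right ht150 (Real.rpow_nonneg htpos.le _)
    rw [← pow_mul]
    calc (150 * X) ^ (l * n) ≤ (t ^ (1 + a)) ^ (l * n) := pow_le_pow_left₀ (by positivity) e1 _
      _ = t ^ ((1 + a) * (l * n : ℕ)) := by
          rw [← Real.rpow_natCast, ← Real.rpow_mul htpos.le]
      _ ≤ t ^ E := by
          apply Real.rpow_le_rpow_of_exponent_le htt1
          rw [hE]
          linarith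
      _ = t' := htE.symm
  · rw [hX, ht, ← Real.rpow_mul hDpos.le, ← Real.rpow_mul hDpos.le]
    apply Real.rpow_le_rpow_of_exponent_le hDge
    have h5 : κ ≤ κ * E ^ j := le_mul_of_one_le_right hκ0.le hEj
    have h6 : κ * a ≤ κ * E ^ j * a := mul_le_mul_of_nonneg_right h5 ha0.le
    linarith

end GALH

open GALH in
/-- **the chain of scales** -/
theorem t_GALof : S_GALof := by
  intro hMany hScale hClt n l hl
  obtain ⟨A, hA1, hA⟩ := hMany n
  obtain ⟨C0, hC0, hcl⟩ := hClt n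
  obtain ⟨κ, E, a, D0, hκ, hE, ha, hD0, hreal⟩ := real_part n l (2 ^ n) A hA1
  have hη : 0 < κ * a / 200 := by positivity
  obtain ⟨η, hηd⟩ : ∃ η : ℝ, η = κ * a / 200 := ⟨_, rfl⟩
  rw [← hηd] at hη hreal
  obtain ⟨C1, hC1, hcnt⟩ := cnt n (η / 2) (by linarith)
  have hD0pos : 0 < D0 := by linarith
  refine ⟨η / 2, max (C0 * D0 * D0 ^ (η / 2)) (2 * (2 ^ n * C1)), by linarith,
    lt_max_of_lt_left (mul_pos (mul_pos hC0 hD0pos) (Real.rpow_pos_of_pos hD0pos _)), ?_⟩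
  intro L _ _ _ hL hG
  obtain ⟨D, hD⟩ : ∃ D : ℝ, D = |(discr L : ℝ)| := ⟨_, rfl⟩
  have hD1 : (1 : ℝ) ≤ D := by
    rw [hD]
    have := Int.one_le_abs (discr_ne_zero L)
    exact_mod_cast this
  have hDpos : 0 < D := by linarith
  obtain ⟨H, hH⟩ : ∃ H : ℝ, H = (Nat.card {c : ClassGroup (𝓞 L) // c ^ l = 1} : ℝ) := ⟨_, rfl⟩
  have hH0 : 0 ≤ H := by
    rw [hH]
    exact Nat.cast_nonneg _
  rw [← hH, ← hD]
  by_cases hsmall : D < D0
  · have h1 : H ≤ C0 * D := by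
      rw [hD, hH]
      refine le_trans ?_ (hcl L hL)
      exact_mod_cast Nat.card_le_card_of_injective
        (fun c : {c : ClassGroup (𝓞 L) // c ^ l = 1} => c.1) Subtype.val_injective
    have h2 : 1 ≤ D0 ^ (η / 2) * D ^ (1 / 2 - η / 2 : ℝ) := by
      have h3 : D ^ (η / 2) ≤ D0 ^ (η / 2) := Real.rpow_le_rpow hDpos.le hsmall.le (by linarith)
      calc (1 : ℝ) ≤ D ^ (1 / 2 : ℝ) := Real.one_le_rpow hD1 (by norm_num)
        _ = D ^ (η / 2) * D ^ (1 / 2 - η / 2 : ℝ) := by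
            rw [← Real.rpow_add hDpos]
            ring_nf
        _ ≤ D0 ^ (η / 2) * D ^ (1 / 2 - η / 2 : ℝ) :=
            mul_le_mul_of_nonneg_right h3 (Real.rpow_nonneg hDpos.le _)
    have h4 : C0 * D ≤ C0 * D0 := mul_le_mul_of_nonneg_left hsmall.le hC0.le
    have h5 : 0 ≤ C0 * D0 := (mul_pos hC0 hD0pos).le
    calc H ≤ C0 * D0 * 1 := by linarith
      _ ≤ C0 * D0 * (D0 ^ (η / 2) * D ^ (1 / 2 - η / 2 : ℝ)) := mul_le_mul_of_nonneg_left h2 h5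
      _ = C0 * D0 * D0 ^ (η / 2) * D ^ (1 / 2 - η / 2 : ℝ) := by ring
      _ ≤ _ := mul_le_mul_of_nonneg_right (le_max_left _ _) (Real.rpow_nonneg hDpos.le _)
  · have hlarge : D0 ≤ D := not_lt.1 hsmall
    obtain ⟨hlog, hj⟩ := hreal D hlarge
    have hcard : Nat.card Gal(L/ℚ) = n := by
      rw [IsGaloisGroup.card_eq_finrank Gal(L/ℚ) ℚ L, hL]
    obtain ⟨j, hjm, hgap⟩ := gap (L := L) (M := 2 ^ n) (by rw [hcard])
      (fun j => D ^ (κ * E ^ j)) (monotone_nat_of_le_succ fun j =>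
        Real.rpow_le_rpow_of_exponent_le hD1 (mul_le_mul_of_nonneg_left
          (pow_le_pow_right₀ hE (Nat.le_succ j)) hκ.le))
    obtain ⟨e1, e2, e3, e4, e5, e6, e7, e8⟩ := hj j hjm _ _ _ rfl rfl rfl
    obtain ⟨N, hN, hsum⟩ := hcnt L hL
    rw [hD] at e4 hgap
    have hmain := hScale L n hL A hA1 hA hG l hl _ _ _ (hD ▸ e1) (hD ▸ e2) (hD ▸ e3) hgap e4
      (hD ▸ e5) (hD ▸ e6) (hD ▸ e7) N hN
    rw [← hD] at hmain hsum
    rw [← hH] at hmain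
    have h1 := omega_le (discr L) (discr_ne_zero L)
    rw [← hD] at h1
    have h2 : 1 / 2 * D ^ η ≤ ((D ^ (κ * E ^ j)) ^ a) ^ (1 / 200 : ℝ) -
        ((discr L).natAbs.primeFactors.card : ℝ) := by linarith
    have h3 : 1 / 2 * D ^ η * H ≤ 2 ^ n * (C1 * D ^ (1 / 2 + η / 2 : ℝ)) := by
      refine (mul_le_mul_of_nonneg_right h2 hH0).trans (hmain.trans ?_)
      exact mul_le_mul_of_nonneg_left hsum (by positivity)
    have h4 : D ^ (1 / 2 + η / 2 : ℝ) = D ^ η * D ^ (1 / 2 - η / 2 : ℝ) := by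
      rw [← Real.rpow_add hDpos]
      ring_nf
    have h5 : 0 < D ^ η := Real.rpow_pos_of_pos hDpos _
    have h6 : H ≤ 2 * (2 ^ n * C1) * D ^ (1 / 2 - η / 2 : ℝ) := by
      rw [h4] at h3
      have h7 : D ^ η * H ≤ D ^ η * (2 * (2 ^ n * C1) * D ^ (1 / 2 - η / 2 : ℝ)) := by
        linarith
      exact le_of_mul_le_mul_left h7 h5
    exact h6.trans (mul_le_mul_of_nonneg_right (le_max_right _ _) (Real.rpow_nonneg hDpos.le _))

end Pool.Agent.H514.TR
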