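import Pool.Graph.R_pool_sql_team_seeded_efc1946e.K1H79.TOR.Scale
import Pool.Graph.R_pool_sql_team_seeded_efc1946e.K1H79.TW.Stm

/-! # Torsion in the class groups of Galois fields, for all `ℓ`: statements of the remaining pieces

Owner helper514 (MP_695920_nt).  This completes the project TOR of helper79 (library, run efc1946e). -/

set_option autoImplicit false

namespace Pool.Agent.H514.TR

open NumberField Pointwise Pool.Agent.K1H79.TOR Pool.Agent.TH847.LS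
open scoped Classical nonZeroDivisors

/-- FAC: the zeros in the disc of radius `1/3` around `7/6` are split off -/
def S_FAC : Prop := ∀ g : ℂ → ℂ, DifferentiableOn ℂ g {s | 0 < s.re} → g (7 / 6) ≠ 0 →
  ∃ (Z : Multiset ℂ) (h : ℂ → ℂ), DifferentiableOn ℂ h {s | 0 < s.re} ∧
    (∀ s : ℂ, 0 < s.re → g s = (Z.map (fun ρ => s - ρ)).prod * h s) ∧
    (∀ ρ ∈ Z, ‖ρ - 7 / 6‖ ≤ 1 / 3 ∧ g ρ = 0) ∧ ∀ s : ℂ, ‖s - 7 / 6‖ ≤ 1 / 3 → h s ≠ 0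

/-- BCD: the logarithmic derivative of a function without zeros (Borel, Carathéodory) -/
def S_BCD : Prop := ∃ K : ℝ, 0 < K ∧ ∀ (h : ℂ → ℂ) (N : ℝ), 0 < N → DifferentiableOn ℂ h {s | 0 < s.re} →
  (∀ s : ℂ, ‖s - 7 / 6‖ ≤ 1 / 3 → h s ≠ 0 ∧ ‖h s‖ ≤ Real.exp N * ‖h (7 / 6)‖) →
  ∀ s : ℂ, ‖s - 7 / 6‖ ≤ 1 / 6 → ‖deriv h s / h s‖ ≤ K * N

/-- LAN: a one-sided bound for the logarithmic derivative at real points (Landau) -/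
def S_LAN : Prop := ∃ K : ℝ, 0 < K ∧ ∀ (g : ℂ → ℂ) (M : ℝ), 1 ≤ M → DifferentiableOn ℂ g {s | 0 < s.re} →
  (∀ s : ℂ, ‖s - 2‖ ≤ 3 / 2 → ‖g s‖ ≤ Real.exp M) → (∀ s : ℂ, 1 < s.re → g s ≠ 0) →
  Real.exp (-M) ≤ ‖g (7 / 6)‖ → ∀ x : ℝ, 1 < x → x ≤ 7 / 6 → -(deriv g (x : ℂ) / g (x : ℂ)).re ≤ K * M

def S_LANof : Prop := S_FAC → S_BCD → S_LAN

/-- LDS: the logarithmic derivative of the Dedekind zeta function is at most minus the sum over any finite set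
of primes; `g(s) = (s - 1) ζ_F(s)` -/
def S_LDS : Prop := ∀ (F : Type) [Field F] [NumberField F] (g : ℂ → ℂ), DifferentiableOn ℂ g {s | 0 < s.re} →
  (∀ s : ℂ, 1 < s.re →
    HasSum (fun m : ℕ => (Pool.Agent.K1H79.TW.rr F m : ℂ) * (m : ℂ) ^ (-s)) (g s / (s - 1))) →
  (∀ s : ℂ, 1 < s.re → g s ≠ 0) ∧ (∀ x : ℝ, 1 < x → x - 1 ≤ ‖g (x : ℂ)‖) ∧
  ∀ x : ℝ, 1 < x → ∀ P : Finset (Ideal (𝓞 F)), (∀ 𝔭 ∈ P, 𝔭.IsPrime ∧ 𝔭 ≠ ⊥) →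
    ∑ 𝔭 ∈ P, Real.log (Ideal.absNorm 𝔭) * (Ideal.absNorm 𝔭 : ℝ) ^ (-x) ≤
      1 / (x - 1) - (deriv g (x : ℂ) / g (x : ℂ)).re

/-- STK: the sum over the primes of a number field for real `x` near `1`, uniform in the field -/
def S_STK : Prop := ∀ n : ℕ, ∃ C : ℝ, 1 ≤ C ∧ ∀ (F : Type) [Field F] [NumberField F],
  Module.finrank ℚ F ≤ n → ∀ x : ℝ, 1 < x → x ≤ 7 / 6 → ∀ P : Finset (Ideal (𝓞 F)),
    (∀ 𝔭 ∈ P, 𝔭.IsPrime ∧ 𝔭 ≠ ⊥) →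
    ∑ 𝔭 ∈ P, Real.log (Ideal.absNorm 𝔭) * (Ideal.absNorm 𝔭 : ℝ) ^ (-x) ≤
      1 / (x - 1) + C * (1 + Real.log |(discr F : ℝ)|)

def S_STKof : Prop := Pool.Agent.K1H79.TW.S_ZB → S_LAN → S_LDS → S_STK

/-- many primes do not have two prime factors of degree one, in fields of degree at most `n` -/
def ManyN (n : ℕ) (A : ℝ) : Prop := ∀ (F : Type) [Field F] [NumberField F], Module.finrank ℚ F ≤ n →
  ∀ X : ℝ, 1 < X → A * (1 + Real.log |(discr F : ℝ)|) ≤ Real.log X → ∀ B : Finset ℕ,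
    (∀ p : ℕ, p.Prime → (p : ℝ) ≤ X → p ∉ B → ∃ S : Finset (Ideal (𝓞 F)), 2 ≤ S.card ∧
      ∀ Q ∈ S, Q.IsPrime ∧ Ideal.absNorm Q = p) → X ^ (1 / 200 : ℝ) ≤ B.card

def S_MANY : Prop := ∀ n : ℕ, ∃ A : ℝ, 1 ≤ A ∧ ManyN n A

def S_MANYof : Prop := S_STK → S_MANY

/-- the condition on the group: the roots of a central element of prime order do not generate the group -/
def GrpC (G : Type) [Group G] : Prop :=
  ∀ z ∈ Subgroup.center G, (orderOf z).Prime → Subgroup.closure (Rts z) ≠ ⊤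

/-- SCALE: the bound at one scale (`K1H79.TOR.scale` with `ManyN` in the place of `Many`) -/
def S_SCALE : Prop := ∀ (L : Type) [Field L] [NumberField L] [IsGalois ℚ L] (n : ℕ),
  Module.finrank ℚ L = n → ∀ A : ℝ, 1 ≤ A → ManyN n A → GrpC Gal(L/ℚ) → ∀ l : ℕ, 1 ≤ l →
  ∀ t t' X : ℝ, 1 ≤ t → ((n : ℝ) + 1) * t ≤ t' → ((n : ℝ) ^ 2 + t) ^ n ≤ t' →
    (∀ U : Subgroup Gal(L/ℚ), Sm t' U → Sm t U) → (2 * t') ^ (n * (n - 1)) < |(discr L : ℝ)| → 1 < X →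
    A * (1 + (n : ℝ) ^ 2 * Real.log (2 * t)) ≤ Real.log X → ((150 * X) ^ l) ^ n ≤ t' →
    ∀ N : ℕ, 2 ^ n * √|(discr L : ℝ)| < N →
    (X ^ (1 / 200 : ℝ) - (discr L).natAbs.primeFactors.card) *
      (Nat.card {c : ClassGroup (𝓞 L) // c ^ l = 1} : ℝ) ≤
      2 ^ n * ∑ J ∈ FI L N, (1 + Real.log ((N : ℝ) / Ideal.absNorm J)) ^ n

/-- CLT: a weak bound for the class number -/
def S_CLT : Prop := ∀ n : ℕ, ∃ C : ℝ, 0 < C ∧ ∀ (L : Type) [Field L] [NumberField L],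
  Module.finrank ℚ L = n → (Nat.card (ClassGroup (𝓞 L)) : ℝ) ≤ C * |(discr L : ℝ)|

/-- GAL: **the result for Galois fields, all `l`** -/
def S_GAL : Prop := ∀ n l : ℕ, 1 ≤ l → ∃ δ C : ℝ, 0 < δ ∧ 0 < C ∧
  ∀ (L : Type) [Field L] [NumberField L] [IsGalois ℚ L], Module.finrank ℚ L = n → GrpC Gal(L/ℚ) →
    (Nat.card {c : ClassGroup (𝓞 L) // c ^ l = 1} : ℝ) ≤ C * |(discr L : ℝ)| ^ (1 / 2 - δ : ℝ)

def S_GALof : Prop := S_MANY → S_SCALE → S_CLT → S_GAL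

end Pool.Agent.H514.TR
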