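import Mathlib
import Pool.Agent.H514.TR.Stm

/-! # BCD: the logarithmic derivative of a function without zeros in a disc -/

set_option autoImplicit false

namespace Pool.Agent.H514.TR

namespace BCD795

open Complex Metric Set Topology

/-- the case of the centre `0` -/
theorem core (u : ℂ → ℂ) (N : ℝ) (hN : 0 < N) (hu : DifferentiableOn ℂ u (ball 0 (1 / 3)))
    (h0 : ∀ z ∈ ball (0 : ℂ) (1 / 3), u z ≠ 0 ∧ ‖u z‖ ≤ Real.exp N * ‖u 0‖) :
    ∀ z : ℂ, ‖z‖ ≤ 1 / 6 → ‖deriv u z / u z‖ ≤ 72 * N := by
  have hder : DifferentiableOn ℂ (fun z => deriv u z / u z) (ball 0 (1 / 3)) :=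
    (hu.deriv isOpen_ball).div hu fun z hz => (h0 z hz).1
  obtain ⟨f, hf0, hf⟩ := hder.isExactOn_ball.with_val_at 0 0
  have hfd : DifferentiableOn ℂ f (ball 0 (1 / 3)) := fun z hz =>
    (hf z hz).differentiableAt.differentiableWithinAt
  have hm0 : (0 : ℂ) ∈ ball (0 : ℂ) (1 / 3) := mem_ball_self (by norm_num)
  -- `u = u 0 * exp f`
  have hexp : ∀ z ∈ ball (0 : ℂ) (1 / 3), u z * Complex.exp (-f z) = u 0 := by
    intro z hz
    have hd : ∀ x ∈ ball (0 : ℂ) (1 / 3),
        HasDerivAt (fun y => u y * Complex.exp (-f y)) 0 x := by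
      intro x hx
      have h1 : HasDerivAt u (deriv u x) x :=
        (hu.differentiableAt (isOpen_ball.mem_nhds hx)).hasDerivAt
      have h2 : HasDerivAt (fun y => Complex.exp (-f y))
          (Complex.exp (-f x) * -(deriv u x / u x)) x := (hf x hx).neg.cexp
      have h3 := h1.mul h2
      have h4 : deriv u x * Complex.exp (-f x) +
          u x * (Complex.exp (-f x) * -(deriv u x / u x)) = 0 := by
        have := (h0 x hx).1
        field_simp
        ring
      rw [h4] at h3
      exact h3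
    have hconst := (convex_ball (0 : ℂ) (1 / 3)).is_const_of_fderivWithin_eq_zero
      (𝕜 := ℂ) (f := fun y => u y * Complex.exp (-f y))
      (fun x hx => (hd x hx).differentiableAt.differentiableWithinAt)
      (fun x hx => by
        rw [fderivWithin_of_isOpen isOpen_ball hx, (hd x hx).hasFDerivAt.fderiv]
        ext
        simp) hz hm0
    have h5 : u z * Complex.exp (-f z) = u 0 * Complex.exp (-f 0) := hconst
    rw [h5, hf0, neg_zero, Complex.exp_zero, mul_one]
  have hre : MapsTo f (ball 0 (1 / 3)) {z | z.re ≤ N} := by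
    intro z hz
    have h1 := hexp z hz
    have h2 : u z = u 0 * Complex.exp (f z) := by
      rw [← h1, mul_assoc, ← Complex.exp_add, neg_add_cancel, Complex.exp_zero, mul_one]
    have h3 := (h0 z hz).2
    rw [h2, norm_mul, Complex.norm_exp, mul_comm] at h3
    have h4 : 0 < ‖u 0‖ := norm_pos_iff.2 (h0 0 hm0).1
    have h5 := le_of_mul_le_mul_right h3 h4
    exact Real.exp_le_exp.1 h5
  have hbc : ∀ z : ℂ, ‖z‖ ≤ 1 / 4 → ‖f z‖ ≤ 6 * N := by
    intro z hz
    have hz' : z ∈ ball (0 : ℂ) (1 / 3) := by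
      rw [mem_ball_zero_iff]
      linarith
    have h1 := Complex.borelCaratheodory_zero hN hfd hre (by norm_num) hz' hf0
    have h2 : 2 * N * ‖z‖ / (1 / 3 - ‖z‖) ≤ 6 * N := by
      rw [div_le_iff₀ (by linarith)]
      nlinarith [norm_nonneg z]
    exact h1.trans h2
  intro z hz
  have hz' : z ∈ ball (0 : ℂ) (1 / 3) := by
    rw [mem_ball_zero_iff]
    linarith
  have hsub : closedBall z (1 / 12) ⊆ ball (0 : ℂ) (1 / 3) := by
    intro x hx
    rw [mem_closedBall, dist_eq_norm] at hx
    rw [mem_ball_zero_iff]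
    have := norm_add_le (x - z) z
    rw [sub_add_cancel] at this
    linarith
  have hdc : DiffContOnCl ℂ f (ball z (1 / 12)) := by
    apply DifferentiableOn.diffContOnCl
    rw [closure_ball z (by norm_num)]
    exact hfd.mono hsub
  have hC : ∀ x ∈ sphere z (1 / 12), ‖f x‖ ≤ 6 * N := by
    intro x hx
    rw [mem_sphere, dist_eq_norm] at hx
    apply hbc
    have := norm_add_le (x - z) z
    rw [sub_add_cancel] at this
    linarith
  have h1 := Complex.norm_deriv_le_of_forall_mem_sphere_norm_le (by norm_num) hdc hC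
  rw [(hf z hz').deriv] at h1
  refine h1.trans (le_of_eq ?_)
  ring

end BCD795

theorem t_BCD : S_BCD := by
  refine ⟨72, by norm_num, fun h N hN hh hz s hs => ?_⟩
  have hmem : ∀ z : ℂ, ‖z‖ < 1 / 3 → 0 < (z + 7 / 6).re := by
    intro z hz
    have h1 := Complex.abs_re_le_norm z
    have h2 := neg_abs_le z.re
    have h3 : (z + 7 / 6 : ℂ).re = z.re + 7 / 6 := by
      rw [Complex.add_re]
      norm_num
    rw [h3]
    linarith
  have hd : DifferentiableOn ℂ (fun z => h (z + 7 / 6)) (Metric.ball 0 (1 / 3)) := by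
    refine hh.comp (by fun_prop) fun z hz => ?_
    exact hmem z (mem_ball_zero_iff.1 hz)
  have h1 := BCD795.core (fun z => h (z + 7 / 6)) N hN hd (fun z hz' => by
    have h2 := hz (z + 7 / 6) (by
      rw [add_sub_cancel_right]
      exact (mem_ball_zero_iff.1 hz').le)
    refine ⟨h2.1, ?_⟩
    simp only [zero_add]
    exact h2.2) (s - 7 / 6) hs
  simp only [sub_add_cancel] at h1
  have h2 : deriv (fun z => h (z + 7 / 6)) (s - 7 / 6) = deriv h s := by
    rw [deriv_comp_add_const, sub_add_cancel]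
  rw [h2] at h1
  exact h1

end Pool.Agent.H514.TR
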