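import Pool.Agent.H514.TR.Stm

/-! # The zeros of a holomorphic function in a disc are split off (S_FAC) -/

set_option autoImplicit false

namespace Pool.Agent.H514.TR

namespace FAC

/-- the factorization with `n` factors -/
def Fac (g : ℂ → ℂ) (M : ℝ) (n : ℕ) (Z : Multiset ℂ) (h : ℂ → ℂ) : Prop :=
  DifferentiableOn ℂ h {s | 0 < s.re} ∧
    (∀ s : ℂ, 0 < s.re → g s = (Z.map (fun ρ => s - ρ)).prod * h s) ∧
    (∀ ρ ∈ Z, ‖ρ - 7 / 6‖ ≤ 1 / 3 ∧ g ρ = 0) ∧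
    (∀ s : ℂ, ‖s - 7 / 6‖ = 1 → ‖h s‖ ≤ M * (3 / 2) ^ n) ∧
    ‖g (7 / 6)‖ ≤ (1 / 3) ^ n * ‖h (7 / 6)‖

theorem re_pos_of_le_one {s : ℂ} (h : ‖s - 7 / 6‖ ≤ 1) : 0 < s.re := by
  have h1 := (Complex.abs_re_le_norm (s - 7 / 6)).trans h
  have h2 : (s - 7 / 6).re = s.re - 7 / 6 := by
    rw [Complex.sub_re]
    norm_num
  rw [h2] at h1
  linarith [(abs_le.1 h1).1]

theorem isOpen_half : IsOpen {s : ℂ | 0 < s.re} := isOpen_lt continuous_const Complex.continuous_re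

theorem step {g : ℂ → ℂ} {M : ℝ} {n : ℕ} {Z : Multiset ℂ} {h : ℂ → ℂ} (H : Fac g M n Z h)
    {ρ : ℂ} (hρ : ‖ρ - 7 / 6‖ ≤ 1 / 3) (h0 : h ρ = 0) :
    Fac g M (n + 1) (ρ ::ₘ Z) (dslope h ρ) := by
  obtain ⟨H1, H2, H3, H4, H5⟩ := H
  have hρre : 0 < ρ.re := re_pos_of_le_one (hρ.trans (by norm_num))
  have key : ∀ s : ℂ, h s = (s - ρ) * dslope h ρ s := by
    intro s
    have h1 := sub_smul_dslope h ρ s
    rw [smul_eq_mul, h0, sub_zero] at h1
    exact h1.symm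
  refine ⟨(Complex.differentiableOn_dslope (isOpen_half.mem_nhds hρre)).2 H1, ?_, ?_, ?_, ?_⟩
  · intro s hs
    rw [H2 s hs, key s, Multiset.map_cons, Multiset.prod_cons]
    ring
  · intro z hz
    rcases Multiset.mem_cons.1 hz with rfl | hz
    · refine ⟨hρ, ?_⟩
      rw [H2 _ hρre, h0, mul_zero]
    · exact H3 z hz
  · intro s hs
    have h1 := H4 s hs
    rw [key s, norm_mul] at h1
    have h2 : 2 / 3 ≤ ‖s - ρ‖ := by
      have h3 := norm_sub_norm_le (s - 7 / 6) (ρ - 7 / 6)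
      have h4 : s - 7 / 6 - (ρ - 7 / 6) = s - ρ := by ring
      rw [h4, hs] at h3
      linarith
    have h3 : 2 / 3 * ‖dslope h ρ s‖ ≤ ‖s - ρ‖ * ‖dslope h ρ s‖ :=
      mul_le_mul_of_nonneg_right h2 (norm_nonneg _)
    rw [pow_succ]
    linarith
  · have h1 : ‖h (7 / 6)‖ ≤ 1 / 3 * ‖dslope h ρ (7 / 6)‖ := by
      rw [key (7 / 6), norm_mul, norm_sub_rev]
      exact mul_le_mul_of_nonneg_right hρ (norm_nonneg _)
    rw [pow_succ, mul_assoc]
    exact H5.trans (mul_le_mul_of_nonneg_left h1 (by positivity))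

theorem bound {g : ℂ → ℂ} {M : ℝ} {n : ℕ} {Z : Multiset ℂ} {h : ℂ → ℂ} (H : Fac g M n Z h) :
    ‖g (7 / 6)‖ ≤ M * (1 / 2) ^ n := by
  obtain ⟨H1, -, -, H4, H5⟩ := H
  have h1 : ‖h (7 / 6)‖ ≤ M * (3 / 2) ^ n := by
    refine Complex.norm_le_of_forall_mem_frontier_norm_le (U := Metric.ball (7 / 6) 1)
      Metric.isBounded_ball ?_ ?_ (subset_closure (Metric.mem_ball_self one_pos))
    · apply DifferentiableOn.diffContOnCl
      rw [closure_ball _ one_ne_zero]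
      refine H1.mono fun s hs => re_pos_of_le_one ?_
      rw [← dist_eq_norm]
      exact hs
    · intro s hs
      rw [frontier_ball _ one_ne_zero] at hs
      apply H4
      rw [← dist_eq_norm]
      exact hs
  have h2 : (1 / 3 : ℝ) ^ n * (M * (3 / 2) ^ n) = M * (1 / 2) ^ n := by
    rw [mul_left_comm, ← mul_pow]
    norm_num
  rw [← h2]
  exact H5.trans (mul_le_mul_of_nonneg_left h1 (by positivity))

end FAC

theorem t_FAC : S_FAC := by
  intro g hg hg0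
  obtain ⟨M, hM⟩ : ∃ M : ℝ, ∀ s ∈ Metric.closedBall (7 / 6 : ℂ) 1, ‖g s‖ ≤ M :=
    (isCompact_closedBall _ _).exists_bound_of_continuousOn
      (hg.continuousOn.mono fun s hs => FAC.re_pos_of_le_one (by
        rw [← dist_eq_norm]
        exact hs))
  by_contra hcon
  have hind : ∀ n : ℕ, ∃ (Z : Multiset ℂ) (h : ℂ → ℂ), FAC.Fac g M n Z h := by
    intro n
    induction n with
    | zero =>
      refine ⟨0, g, hg, fun s _ => ?_, fun ρ hρ => absurd hρ (Multiset.notMem_zero ρ),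
        fun s hs => ?_, ?_⟩
      · rw [Multiset.map_zero, Multiset.prod_zero, one_mul]
      · rw [pow_zero, mul_one]
        apply hM
        rw [Metric.mem_closedBall, dist_eq_norm, hs]
      · rw [pow_zero, one_mul]
    | succ n ih =>
      obtain ⟨Z, h, H⟩ := ih
      have h1 : ¬ ∀ s : ℂ, ‖s - 7 / 6‖ ≤ 1 / 3 → h s ≠ 0 := fun h2 =>
        hcon ⟨Z, h, H.1, H.2.1, H.2.2.1, h2⟩
      push Not at h1
      obtain ⟨ρ, hρ, h0⟩ := h1
      exact ⟨_, _, FAC.step H hρ h0⟩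
  have hgp : 0 < ‖g (7 / 6)‖ := norm_pos_iff.2 hg0
  have hlim : Filter.Tendsto (fun n : ℕ => M * (1 / 2 : ℝ) ^ n) Filter.atTop (nhds (M * 0)) :=
    (tendsto_pow_atTop_nhds_zero_of_lt_one (by norm_num) (by norm_num)).const_mul M
  have h2 := ge_of_tendsto' hlim fun n => by
    obtain ⟨Z, h, H⟩ := hind n
    exact FAC.bound H
  rw [mul_zero] at h2
  linarith

end Pool.Agent.H514.TR
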