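import Mathlib
import Pool.Agent.H514.TR.Stm

/-! # LAN: a one-sided bound for the logarithmic derivative at real points (Landau) -/

set_option autoImplicit false

namespace Pool.Agent.H514.TR

namespace H618LAN

theorem re_inv_nonneg {x : ℝ} {a : ℂ} (ha : a.re < x) : 0 ≤ (1 / ((x : ℂ) - a)).re := by
  rw [one_div, Complex.inv_re]
  apply div_nonneg _ (Complex.normSq_nonneg _)
  simp only [Complex.sub_re, Complex.ofReal_re]
  linarith

theorem prod_facts (x : ℝ) (Z : Multiset ℂ) : (∀ ρ ∈ Z, ρ.re < x) →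
    (Z.map (fun ρ => (x : ℂ) - ρ)).prod ≠ 0 ∧
    DifferentiableAt ℂ (fun s : ℂ => (Z.map (fun ρ => s - ρ)).prod) (x : ℂ) ∧
    0 ≤ (deriv (fun s : ℂ => (Z.map (fun ρ => s - ρ)).prod) (x : ℂ) /
      (Z.map (fun ρ => (x : ℂ) - ρ)).prod).re := by
  induction Z using Multiset.induction_on with
  | empty =>
    intro _
    simp
  | cons a Z ih =>
    intro h
    obtain ⟨h1, h2, h3⟩ := ih fun ρ hρ => h ρ (Multiset.mem_cons_of_mem hρ)
    have ha : a.re < x := h a (Multiset.mem_cons_self a Z)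
    have hxa : (x : ℂ) - a ≠ 0 := by
      intro h0
      have : ((x : ℂ) - a).re = 0 := by rw [h0]; rfl
      simp only [Complex.sub_re, Complex.ofReal_re] at this
      linarith
    have hd1 : HasDerivAt (fun s : ℂ => s - a) 1 (x : ℂ) := (hasDerivAt_id _).sub_const a
    have hd2 := hd1.fun_mul h2.hasDerivAt
    simp only [Multiset.map_cons, Multiset.prod_cons]
    refine ⟨mul_ne_zero hxa h1, hd2.differentiableAt, ?_⟩
    rw [hd2.deriv]
    have e : (1 * (Z.map (fun ρ => (x : ℂ) - ρ)).prod +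
        ((x : ℂ) - a) * deriv (fun s : ℂ => (Z.map (fun ρ => s - ρ)).prod) (x : ℂ)) /
        (((x : ℂ) - a) * (Z.map (fun ρ => (x : ℂ) - ρ)).prod) =
        1 / ((x : ℂ) - a) + deriv (fun s : ℂ => (Z.map (fun ρ => s - ρ)).prod) (x : ℂ) /
          (Z.map (fun ρ => (x : ℂ) - ρ)).prod := by
      field_simp
    rw [e, Complex.add_re]
    exact add_nonneg (re_inv_nonneg ha) h3

theorem prod_norm_le (s t : ℂ) (Z : Multiset ℂ) : (∀ ρ ∈ Z, ‖s - ρ‖ ≤ ‖t - ρ‖) →
    ‖(Z.map (fun ρ => s - ρ)).prod‖ ≤ ‖(Z.map (fun ρ => t - ρ)).prod‖ := by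
  induction Z using Multiset.induction_on with
  | empty =>
    intro _
    simp
  | cons a Z ih =>
    intro h
    have h1 := ih fun ρ hρ => h ρ (Multiset.mem_cons_of_mem hρ)
    have h2 := h a (Multiset.mem_cons_self a Z)
    simp only [Multiset.map_cons, Multiset.prod_cons, norm_mul]
    exact mul_le_mul h2 h1 (norm_nonneg _) (norm_nonneg _)

end H618LAN

open H618LAN in
/-- **LAN.** -/
theorem t_LANof : S_LANof := by
  intro hF ⟨K, hK, hB⟩
  refine ⟨K * 2, by positivity, ?_⟩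
  intro g M hM hg hgb hgz hlow x hx1 hx2
  have hg0 : g (7 / 6) ≠ 0 := by
    intro h0
    rw [h0, norm_zero] at hlow
    exact absurd hlow (not_le.2 (Real.exp_pos _))
  obtain ⟨Z, h, hh, hfac, hZ, hhz⟩ := hF g hg hg0
  have hre : ∀ s : ℂ, ‖s - 7 / 6‖ ≤ 2 / 3 → 0 < s.re := by
    intro s hs
    have h1 := (Complex.abs_re_le_norm (s - 7 / 6)).trans hs
    have h2 : (s - 7 / 6).re = s.re - 7 / 6 := by
      rw [Complex.sub_re]
      norm_num
    rw [h2] at h1
    have := (abs_le.1 h1).1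
    linarith
  have h76 : (0 : ℝ) < ((7 : ℂ) / 6).re := hre _ (by rw [sub_self, norm_zero]; norm_num)
  have hg0' := hfac (7 / 6) h76
  have hP0 : (Z.map (fun ρ => (7 : ℂ) / 6 - ρ)).prod ≠ 0 := by
    intro h0
    rw [h0, zero_mul] at hg0'
    exact hg0 hg0'
  have hP0' : 0 < ‖(Z.map (fun ρ => (7 : ℂ) / 6 - ρ)).prod‖ := norm_pos_iff.2 hP0
  -- the bound on the circle
  have hcirc : ∀ s : ℂ, ‖s - 7 / 6‖ = 2 / 3 → ‖h s‖ ≤ Real.exp (2 * M) * ‖h (7 / 6)‖ := by
    intro s hs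
    have h1 : ∀ ρ ∈ Z, ‖(7 : ℂ) / 6 - ρ‖ ≤ ‖s - ρ‖ := by
      intro ρ hρ
      have h2 := (hZ ρ hρ).1
      rw [norm_sub_rev] at h2
      have h3 : ‖s - 7 / 6‖ ≤ ‖s - ρ‖ + ‖ρ - 7 / 6‖ := norm_sub_le_norm_sub_add_norm_sub _ _ _
      rw [hs, norm_sub_rev ρ] at h3
      linarith
    have h2 := prod_norm_le _ _ Z h1
    have h3 : ‖g s‖ ≤ Real.exp M := by
      apply hgb
      have h4 : ‖s - 2‖ ≤ ‖s - 7 / 6‖ + ‖(7 : ℂ) / 6 - 2‖ := norm_sub_le_norm_sub_add_norm_sub _ _ _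
      have h5 : ‖(7 : ℂ) / 6 - 2‖ = 5 / 6 := by
        have : (7 : ℂ) / 6 - 2 = ((-(5 / 6) : ℝ) : ℂ) := by
          push_cast
          norm_num
        rw [this, Complex.norm_real]
        norm_num
      rw [hs, h5] at h4
      linarith
    have h6 : Real.exp M ≤ Real.exp (2 * M) * ‖g (7 / 6)‖ := by
      calc Real.exp M = Real.exp (2 * M) * Real.exp (-M) := by
            rw [← Real.exp_add]
            congr 1
            ring
        _ ≤ Real.exp (2 * M) * ‖g (7 / 6)‖ := by gcongr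
    rw [hfac s (hre s hs.le), norm_mul] at h3
    rw [hg0', norm_mul] at h6
    have h7 : ‖(Z.map (fun ρ => (7 : ℂ) / 6 - ρ)).prod‖ * ‖h s‖ ≤
        ‖(Z.map (fun ρ => (7 : ℂ) / 6 - ρ)).prod‖ * (Real.exp (2 * M) * ‖h (7 / 6)‖) := by
      calc ‖(Z.map (fun ρ => (7 : ℂ) / 6 - ρ)).prod‖ * ‖h s‖
          ≤ ‖(Z.map (fun ρ => s - ρ)).prod‖ * ‖h s‖ := by gcongr
        _ ≤ Real.exp (2 * M) * (‖(Z.map (fun ρ => (7 : ℂ) / 6 - ρ)).prod‖ * ‖h (7 / 6)‖) :=
            h3.trans h6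
        _ = _ := by ring
    exact le_of_mul_le_mul_left h7 hP0'
  have hcl : closure (Metric.ball (7 / 6 : ℂ) (2 / 3)) = Metric.closedBall (7 / 6 : ℂ) (2 / 3) :=
    closure_ball _ (by norm_num)
  have hdc : DiffContOnCl ℂ h (Metric.ball (7 / 6 : ℂ) (2 / 3)) := by
    apply DifferentiableOn.diffContOnCl
    rw [hcl]
    refine hh.mono fun s hs => ?_
    rw [Metric.mem_closedBall, dist_eq_norm] at hs
    exact hre s hs
  have hball : ∀ s : ℂ, ‖s - 7 / 6‖ ≤ 2 / 3 → ‖h s‖ ≤ Real.exp (2 * M) * ‖h (7 / 6)‖ := by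
    intro s hs
    refine Complex.norm_le_of_forall_mem_frontier_norm_le Metric.isBounded_ball hdc
      (fun z hz => ?_) (z := s) ?_
    · apply hcirc
      rw [frontier_ball _ (by norm_num), Metric.mem_sphere, dist_eq_norm] at hz
      exact hz
    · rw [hcl, Metric.mem_closedBall, dist_eq_norm]
      exact hs
  have hxn : ‖(x : ℂ) - 7 / 6‖ ≤ 1 / 6 := by
    have : (x : ℂ) - 7 / 6 = ((x - 7 / 6 : ℝ) : ℂ) := by
      push_cast
      ring
    rw [this, Complex.norm_real, Real.norm_eq_abs, abs_le]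
    constructor <;> linarith
  have hlog := hB h (2 * M) (by linarith) hh
    (fun s hs => ⟨hhz s hs, hball s (hs.trans (by norm_num))⟩) (x : ℂ) hxn
  have hZre : ∀ ρ ∈ Z, ρ.re < x := by
    intro ρ hρ
    by_contra hc
    rw [not_lt] at hc
    exact hgz ρ (by linarith) (hZ ρ hρ).2
  obtain ⟨f1, f2, f3⟩ := prod_facts x Z hZre
  have hxre : (0 : ℝ) < (x : ℂ).re := by
    rw [Complex.ofReal_re]
    linarith
  have hopen : IsOpen {s : ℂ | 0 < s.re} := isOpen_lt continuous_const Complex.continuous_re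
  have hhx : DifferentiableAt ℂ h (x : ℂ) := hh.differentiableAt (hopen.mem_nhds hxre)
  have hhx0 : h (x : ℂ) ≠ 0 := hhz _ (hxn.trans (by norm_num))
  have heq : g =ᶠ[nhds (x : ℂ)] fun s => (Z.map (fun ρ => s - ρ)).prod * h s :=
    Filter.eventually_of_mem (hopen.mem_nhds hxre) fun s hs => hfac s hs
  have hder : deriv g (x : ℂ) = deriv (fun s : ℂ => (Z.map (fun ρ => s - ρ)).prod) (x : ℂ) *
      h (x : ℂ) + (Z.map (fun ρ => (x : ℂ) - ρ)).prod * deriv h (x : ℂ) := by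
    rw [heq.deriv_eq]
    exact (f2.hasDerivAt.fun_mul hhx.hasDerivAt).deriv
  have hq : deriv g (x : ℂ) / g (x : ℂ) =
      deriv (fun s : ℂ => (Z.map (fun ρ => s - ρ)).prod) (x : ℂ) /
        (Z.map (fun ρ => (x : ℂ) - ρ)).prod + deriv h (x : ℂ) / h (x : ℂ) := by
    rw [hder, hfac (x : ℂ) hxre]
    field_simp
  rw [hq, Complex.add_re]
  have h8 := (Complex.abs_re_le_norm (deriv h (x : ℂ) / h (x : ℂ))).trans hlog
  have h9 := (abs_le.1 h8).1
  linarith

end Pool.Agent.H514.TR
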