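import Pool.Agent.H514.TR.Stm
import Pool.Graph.R_seed8.Y773.HK.Eul
import Pool.Graph.R_seed8.Y772.NZ.Zeta

/-! # The logarithmic derivative of the Dedekind zeta function and sums over finitely many primes

Helper100, subtask TR-LDS for helper514 (MP_695920_nt). -/

set_option autoImplicit false

namespace Pool.Agent.H514.TR

namespace LDSx

open NumberField Complex Filter Topology Pool.Agent.Y773 Pool.Agent.Y772.DK Pool.Agent.Y772.NZ

variable {F : Type} [Field F] [NumberField F]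

lemma zeta_eq' {g : ℂ → ℂ} (hg : ∀ s : ℂ, 1 < s.re →
    HasSum (fun m : ℕ => (Pool.Agent.K1H79.TW.rr F m : ℂ) * (m : ℂ) ^ (-s)) (g s / (s - 1)))
    {s : ℂ} (hs : 1 < s.re) : g s / (s - 1) = LI (one F) s := by
  rw [LI_one F hs, ← (hg s hs).tsum_eq]
  unfold dedekindZeta LSeries
  refine tsum_congr fun m => ?_
  by_cases hm : m = 0
  · subst hm
    have h0 : (-s : ℂ) ≠ 0 := by
      intro h
      have h1 := congrArg Complex.re h
      simp only [neg_re, zero_re] at h1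
      linarith
    rw [LSeries.term_zero, Nat.cast_zero, zero_cpow h0, mul_zero]
  · rw [LSeries.term_of_ne_zero hm, cpow_neg, div_eq_mul_inv]
    unfold Pool.Agent.K1H79.TW.rr
    push_cast
    rfl

lemma norm_eq_exp {s : ℂ} (hs : 1 < s.re) :
    ‖LI (one F) s‖ = Real.exp (LA (ee (one F)) s).re := by
  rw [LI_eq_exp (one F) (one_norm F) hs, Complex.norm_exp]

lemma LI_ne {s : ℂ} (hs : 1 < s.re) : LI (one F) s ≠ 0 := by
  rw [LI_eq_exp (one F) (one_norm F) hs]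
  exact Complex.exp_ne_zero _

/-- the norm of a prime is at least two -/
lemma two_le {𝔭 : Ideal (𝓞 F)} (h : Prime 𝔭) : (2 : ℝ) ≤ (Ideal.absNorm 𝔭 : ℝ) := by
  have h1 : Ideal.absNorm 𝔭 ≠ 0 := fun h1 => h.ne_zero (Ideal.absNorm_eq_zero_iff.mp h1)
  have h2 : Ideal.absNorm 𝔭 ≠ 1 := fun h2 =>
    (Ideal.isPrime_of_prime h).ne_top (Ideal.absNorm_eq_one_iff.mp h2)
  exact_mod_cast (by omega : 2 ≤ Ideal.absNorm 𝔭)

lemma rp_lt_one {N x : ℝ} (hN : 2 ≤ N) (hx : 0 < x) : N ^ (-x) < 1 :=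
  Real.rpow_lt_one_of_one_lt_of_neg (by linarith) (by linarith)

/-- the logarithm of the zeta function as a sum over the primes -/
lemma hasSum_real {y : ℝ} (hy : 1 < y) :
    HasSum (fun 𝔭 : {𝔭 : Ideal (𝓞 F) // Prime 𝔭} =>
      -Real.log (1 - (Ideal.absNorm 𝔭.1 : ℝ) ^ (-y))) (Real.log ‖LI (one F) (y : ℂ)‖) := by
  have hy' : 1 < ((y : ℂ)).re := by rw [ofReal_re]; exact hy
  have h1 := Complex.hasSum_re (hasSum_log (one_norm F) hy')
  rw [norm_eq_exp hy', Real.log_exp]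
  refine h1.congr_fun fun 𝔭 => ?_
  have h2 : zz (one F) (y : ℂ) 𝔭.1 = (((Ideal.absNorm 𝔭.1 : ℝ) ^ (-y) : ℝ) : ℂ) := by
    unfold zz
    rw [one_ne F 𝔭.2.ne_zero, one_mul, Complex.ofReal_cpow (Nat.cast_nonneg _)]
    push_cast
    rfl
  rw [h2, neg_re, Complex.log_re, ← Complex.ofReal_one, ← Complex.ofReal_sub, Complex.norm_real,
    Real.norm_eq_abs, Real.log_abs]

/-- comparison of the values at two points -/
lemma compare {x y : ℝ} (hx : 1 < x) (hxy : x ≤ y) (P : Finset (Ideal (𝓞 F)))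
    (hP : ∀ 𝔭 ∈ P, Prime 𝔭) :
    Real.log ‖LI (one F) (y : ℂ)‖ + ∑ 𝔭 ∈ P, Real.log (1 - (Ideal.absNorm 𝔭 : ℝ) ^ (-y)) ≤
      Real.log ‖LI (one F) (x : ℂ)‖ + ∑ 𝔭 ∈ P, Real.log (1 - (Ideal.absNorm 𝔭 : ℝ) ^ (-x)) := by
  classical
  have h1 := (hasSum_real (F := F) hx).sub (hasSum_real (F := F) (hx.trans_le hxy))
  have h2 := sum_le_hasSum (P.subtype (fun 𝔭 => Prime 𝔭)) (fun 𝔭 _ => by
    have hN := two_le 𝔭.2
    have h3 : (Ideal.absNorm 𝔭.1 : ℝ) ^ (-y) ≤ (Ideal.absNorm 𝔭.1 : ℝ) ^ (-x) :=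
      Real.rpow_le_rpow_of_exponent_le (by linarith) (by linarith)
    have h4 := rp_lt_one hN (by linarith : 0 < x)
    have h5 : Real.log (1 - (Ideal.absNorm 𝔭.1 : ℝ) ^ (-x)) ≤
        Real.log (1 - (Ideal.absNorm 𝔭.1 : ℝ) ^ (-y)) :=
      Real.log_le_log (by linarith) (by linarith)
    linarith) h1
  rw [Finset.sum_subtype_of_mem (fun 𝔭 : Ideal (𝓞 F) =>
    -Real.log (1 - (Ideal.absNorm 𝔭 : ℝ) ^ (-x)) - -Real.log (1 - (Ideal.absNorm 𝔭 : ℝ) ^ (-y))) hP,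
    Finset.sum_sub_distrib, Finset.sum_neg_distrib, Finset.sum_neg_distrib] at h2
  linarith

/-- the derivative of the logarithm of the norm -/
lemma deriv_log_norm {g : ℂ → ℂ} {g' : ℂ} {x : ℝ} (hg : HasDerivAt g g' (x : ℂ))
    (h0 : g (x : ℂ) ≠ 0) : HasDerivAt (fun y : ℝ => Real.log ‖g (y : ℂ)‖) (g' / g (x : ℂ)).re x := by
  have h1 : HasDerivAt (fun y : ℝ => g (y : ℂ)) g' x := hg.comp_ofReal
  have h2 : HasDerivAt (fun y : ℝ => g (y : ℂ) / g (x : ℂ)) (g' / g (x : ℂ)) x := h1.div_const _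
  have h3 : g (x : ℂ) / g (x : ℂ) ∈ slitPlane := by
    rw [div_self h0]; exact one_mem_slitPlane
  have h4 : HasDerivAt (fun y : ℝ => Complex.log (g (y : ℂ) / g (x : ℂ)))
      (g' / g (x : ℂ) / (g (x : ℂ) / g (x : ℂ))) x := h2.clog_real h3
  rw [div_self h0, div_one] at h4
  have h5 : HasDerivAt (fun y : ℝ => (Complex.log (g (y : ℂ) / g (x : ℂ))).re)
      (g' / g (x : ℂ)).re x := by
    have := (Complex.reCLM.hasFDerivAt.comp_hasDerivAt x h4)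
    exact this
  have h6 : HasDerivAt (fun y : ℝ => (Complex.log (g (y : ℂ) / g (x : ℂ))).re +
      Real.log ‖g (x : ℂ)‖) (g' / g (x : ℂ)).re x := h5.add_const _
  refine h6.congr_of_eventuallyEq ?_
  have h7 : ∀ᶠ y in 𝓝 x, g ((y : ℝ) : ℂ) ≠ 0 := h1.continuousAt.eventually_ne h0
  filter_upwards [h7] with y hy
  rw [Complex.log_re, norm_div, Real.log_div (norm_ne_zero_iff.mpr hy) (norm_ne_zero_iff.mpr h0)]
  ring

/-- the derivative of one factor -/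
lemma deriv_factor {N x : ℝ} (hN : 2 ≤ N) (hx : 0 < x) :
    HasDerivAt (fun y : ℝ => Real.log (1 - N ^ (-y))) (Real.log N * N ^ (-x) / (1 - N ^ (-x))) x := by
  have hN0 : 0 < N := by linarith
  have h1 : HasDerivAt (fun y : ℝ => N ^ (-y)) (N ^ (-x) * Real.log N * -1) x :=
    (Real.hasStrictDerivAt_const_rpow hN0 (-x)).hasDerivAt.comp x (hasDerivAt_neg x)
  have h2 : HasDerivAt (fun y : ℝ => 1 - N ^ (-y)) (-(N ^ (-x) * Real.log N * -1)) x :=
    h1.const_sub 1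
  have h3 : (1 : ℝ) - N ^ (-x) ≠ 0 := by
    have := rp_lt_one hN hx
    linarith
  have h4 := h2.log h3
  have h5 : -(N ^ (-x) * Real.log N * -1) / (1 - N ^ (-x)) =
      Real.log N * N ^ (-x) / (1 - N ^ (-x)) := by
    congr 1
    ring
  rw [h5] at h4
  exact h4

end LDSx

open NumberField Pool.Agent.Y773 Pool.Agent.Y772.NZ

theorem t_LDS : S_LDS := by
  intro F _ _ g hg hs
  have hG1 : ∀ s : ℂ, 1 < s.re → g s ≠ 0 := by
    intro s hs1 h0
    have h1 := LDSx.zeta_eq' hs hs1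
    rw [h0, zero_div] at h1
    exact LDSx.LI_ne hs1 h1.symm
  have hre : ∀ x : ℝ, 1 < x → 1 < ((x : ℂ)).re := fun x hx => by
    rw [Complex.ofReal_re]; exact hx
  have hnorm : ∀ x : ℝ, 1 < x → ‖LI (one F) (x : ℂ)‖ = ‖g (x : ℂ)‖ / (x - 1) := by
    intro x hx
    rw [← LDSx.zeta_eq' hs (hre x hx), norm_div]
    congr 1
    rw [← Complex.ofReal_one, ← Complex.ofReal_sub, Complex.norm_real, Real.norm_eq_abs,
      abs_of_pos (by linarith)]
  refine ⟨hG1, ?_, ?_⟩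
  · intro x hx
    have h1 : 0 ≤ Real.log ‖LI (one F) (x : ℂ)‖ := by
      refine (LDSx.hasSum_real (F := F) hx).nonneg fun 𝔭 => ?_
      have hN := LDSx.two_le 𝔭.2
      have h4 := LDSx.rp_lt_one hN (by linarith : 0 < x)
      have h5 : 0 ≤ (Ideal.absNorm 𝔭.1 : ℝ) ^ (-x) := by positivity
      have := Real.log_nonpos (by linarith : 0 ≤ 1 - (Ideal.absNorm 𝔭.1 : ℝ) ^ (-x)) (by linarith)
      linarith
    have h2 : 1 ≤ ‖LI (one F) (x : ℂ)‖ := by
      have h3 : 0 < ‖LI (one F) (x : ℂ)‖ := norm_pos_iff.mpr (LDSx.LI_ne (hre x hx))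
      have h4 := (Real.log_nonneg_iff h3).mp h1
      exact h4
    rw [hnorm x hx, le_div_iff₀ (by linarith)] at h2
    linarith
  · intro x hx P hP
    have hPp : ∀ 𝔭 ∈ P, Prime 𝔭 := fun 𝔭 h =>
      Ideal.prime_of_isPrime (hP 𝔭 h).2 (hP 𝔭 h).1
    let H : ℝ → ℝ := fun y => (Real.log ‖g (y : ℂ)‖ - Real.log (y - 1)) +
      ∑ 𝔭 ∈ P, Real.log (1 - (Ideal.absNorm 𝔭 : ℝ) ^ (-y))
    have hH : ∀ y : ℝ, 1 < y → H y = Real.log ‖LI (one F) (y : ℂ)‖ +
        ∑ 𝔭 ∈ P, Real.log (1 - (Ideal.absNorm 𝔭 : ℝ) ^ (-y)) := by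
      intro y hy
      change (Real.log ‖g (y : ℂ)‖ - Real.log (y - 1)) + _ = _
      rw [hnorm y hy, Real.log_div (norm_ne_zero_iff.mpr (hG1 _ (hre y hy))) (by linarith)]
    have hanti : AntitoneOn H (Set.Ioi 1) := by
      intro a ha b hb hab
      rw [hH a ha, hH b hb]
      exact LDSx.compare ha hab P hPp
    have hd1 : HasDerivAt g (deriv g (x : ℂ)) (x : ℂ) := by
      have hopen : IsOpen {s : ℂ | 0 < s.re} := isOpen_lt continuous_const Complex.continuous_re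
      have hmem : (x : ℂ) ∈ {s : ℂ | 0 < s.re} := by
        change 0 < ((x : ℂ)).re
        have := hre x hx
        linarith
      exact (hg.differentiableAt (hopen.mem_nhds hmem)).hasDerivAt
    have hd2 : HasDerivAt (fun y : ℝ => Real.log ‖g (y : ℂ)‖)
        (deriv g (x : ℂ) / g (x : ℂ)).re x := LDSx.deriv_log_norm hd1 (hG1 _ (hre x hx))
    have hd3 : HasDerivAt (fun y : ℝ => Real.log (y - 1)) (1 / (x - 1)) x :=
      ((hasDerivAt_id x).sub_const 1).log (by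
        change x - 1 ≠ 0
        linarith)
    have hd4 : HasDerivAt (fun y : ℝ => ∑ 𝔭 ∈ P, Real.log (1 - (Ideal.absNorm 𝔭 : ℝ) ^ (-y)))
        (∑ 𝔭 ∈ P, Real.log (Ideal.absNorm 𝔭) * (Ideal.absNorm 𝔭 : ℝ) ^ (-x) /
          (1 - (Ideal.absNorm 𝔭 : ℝ) ^ (-x))) x :=
      HasDerivAt.fun_sum fun 𝔭 h𝔭 => LDSx.deriv_factor (LDSx.two_le (hPp 𝔭 h𝔭)) (by linarith)
    have hd5 := (hd2.sub hd3).add hd4
    have hle := hanti.derivWithin_nonpos (x := x)
    have hd6 : HasDerivAt H _ x := hd5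
    rw [(hd6.hasDerivWithinAt (s := Set.Ioi 1)).derivWithin
      (isOpen_Ioi.uniqueDiffWithinAt hx)] at hle
    have hsum : ∑ 𝔭 ∈ P, Real.log (Ideal.absNorm 𝔭) * (Ideal.absNorm 𝔭 : ℝ) ^ (-x) ≤
        ∑ 𝔭 ∈ P, Real.log (Ideal.absNorm 𝔭) * (Ideal.absNorm 𝔭 : ℝ) ^ (-x) /
          (1 - (Ideal.absNorm 𝔭 : ℝ) ^ (-x)) := by
      refine Finset.sum_le_sum fun 𝔭 h𝔭 => ?_
      have hN := LDSx.two_le (hPp 𝔭 h𝔭)
      have h4 := LDSx.rp_lt_one hN (by linarith : 0 < x)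
      have h5 : 0 ≤ (Ideal.absNorm 𝔭 : ℝ) ^ (-x) := by positivity
      have h6 : 0 ≤ Real.log (Ideal.absNorm 𝔭) * (Ideal.absNorm 𝔭 : ℝ) ^ (-x) :=
        mul_nonneg (Real.log_nonneg (by linarith)) h5
      rw [le_div_iff₀ (by linarith)]
      have h7 := mul_nonneg h6 h5
      nlinarith [h7]
    linarith

end Pool.Agent.H514.TR
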