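import Pool.Agent.H514.TR.Stm
import Pool.Graph.R_pool_sql_team_seeded_efc1946e.K1H79.TOR.Ana0

/-! # Project TR of helper514, part MANY: many primes do not have two prime factors of degree one -/

set_option autoImplicit false

namespace Pool.Agent.H514.TR

open NumberField Pool.Agent.K1H79.TOR

namespace H367

lemma wt_le (x Y : ℝ) (hx : 1 ≤ x) (hY : 1 ≤ Y) (p : ℕ) (hp : Y ≤ p) : wt x p ≤ 2 / √Y := by
  have hY0 : 0 < Y := by linarith
  have hs : 0 < √Y := Real.sqrt_pos.mpr hY0
  unfold wt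
  split_ifs with h
  · have hp1 : (1 : ℝ) ≤ p := by exact_mod_cast h.one_lt.le
    have hp0 : (0 : ℝ) < p := by linarith
    have hsp : 0 < √(p : ℝ) := Real.sqrt_pos.mpr hp0
    have h1 : Real.log p ≤ 2 * √(p : ℝ) := by
      have e : Real.log p = 2 * Real.log (√(p : ℝ)) := by
        rw [Real.log_sqrt hp0.le]
        ring
      rw [e]
      have := Real.log_le_sub_one_of_pos hsp
      linarith
    have h2 : (p : ℝ) ≤ (p : ℝ) ^ x := by
      calc (p : ℝ) = (p : ℝ) ^ (1 : ℝ) := (Real.rpow_one _).symm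
        _ ≤ (p : ℝ) ^ x := Real.rpow_le_rpow_of_exponent_le hp1 hx
    calc Real.log p / (p : ℝ) ^ x ≤ 2 * √(p : ℝ) / p := by
          apply div_le_div₀ (by positivity) h1 hp0 h2
      _ = 2 / √(p : ℝ) := by
          have e : (p : ℝ) = √(p : ℝ) * √(p : ℝ) := (Real.mul_self_sqrt hp0.le).symm
          field_simp
          nlinarith [Real.mul_self_sqrt hp0.le]
      _ ≤ 2 / √Y := by
          apply div_le_div_of_nonneg_left (by norm_num) hs
          exact Real.sqrt_le_sqrt hp
  · positivity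

end H367

open H367

theorem t_MANYof : S_MANYof := by
  intro hSTK n
  classical
  obtain ⟨C1, hC1, hhead⟩ := head
  obtain ⟨C2, hC2, hsmall⟩ := small
  obtain ⟨C3, hC3, hstk⟩ := hSTK n
  refine ⟨20 * (2 * C1 + 2 * C2 + 4 + C3), by linarith, ?_⟩
  intro F _ _ hn X hX hA B hB
  by_contra hcon
  rw [not_le] at hcon
  have hX0 : 0 < X := by linarith
  have hD : 1 ≤ |(discr F : ℝ)| := by
    have h1 : (1 : ℤ) ≤ |discr F| := Int.one_le_abs (discr_ne_zero F)
    exact_mod_cast h1
  have hlogD : 0 ≤ Real.log |(discr F : ℝ)| := Real.log_nonneg hD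
  set M := 1 + Real.log |(discr F : ℝ)| with hM
  have hM1 : 1 ≤ M := by linarith
  set C' := 2 * C1 + 2 * C2 + 4 + C3 with hC'
  have hC'9 : 9 ≤ C' := by linarith
  set l := Real.log X with hl
  have hCM : C' ≤ C' * M := by nlinarith
  have hl180 : 180 ≤ l := by
    have : 20 * C' * M = 20 * (C' * M) := by ring
    linarith
  have hl0 : 0 < l := by linarith
  -- the exponent
  set x := 1 + 6 / l with hx
  have hxpos : 0 < 6 / l := by positivity
  have hx1 : 1 < x := by linarith
  have hx2 : x ≤ 7 / 6 := by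
    have : 6 / l ≤ 1 / 6 := by
      rw [div_le_div_iff₀ hl0 (by norm_num)]
      linarith
    linarith
  have hx3 : 1 / (x - 1) = l / 6 := by
    rw [hx, add_sub_cancel_left, one_div_div]
  -- the small scale
  set Y := X ^ (1 / 100 : ℝ) with hY
  have hlY : Real.log Y = l / 100 := by
    rw [hY, Real.log_rpow hX0]
    ring
  have hY1 : 1 < Y := Real.one_lt_rpow hX (by norm_num)
  have hY0 : 0 < Y := by linarith
  have hsY : √Y = X ^ (1 / 200 : ℝ) := by
    rw [Real.sqrt_eq_rpow, hY, ← Real.rpow_mul hX0.le]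
    norm_num
  have hsY0 : 0 < √Y := Real.sqrt_pos.mpr hY0
  have hh := hhead X hX (by linarith)
  have hsm := hsmall Y hY1 (by rw [hlY]; linarith) x hx1.le
  rw [hlY] at hsm
  set T := (Finset.range (⌊X⌋₊ + 1)).filter Nat.Prime with hT
  -- the primes in `B`
  have ha : ∑ p ∈ T.filter (· ∈ B), wt x p ≤ 2.72 * (l / 100) + C2 + 2 := by
    have hsplit : T.filter (· ∈ B) ⊆
        ((Finset.range (⌊Y⌋₊ + 1)).filter Nat.Prime) ∪ B.filter (fun p : ℕ => Y ≤ (p : ℝ)) := by
      intro p hp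
      rw [Finset.mem_filter, hT, Finset.mem_filter] at hp
      rw [Finset.mem_union, Finset.mem_filter, Finset.mem_filter, Finset.mem_range]
      by_cases h : (p : ℝ) ≤ Y
      · left
        refine ⟨?_, hp.1.2⟩
        have := Nat.le_floor h
        omega
      · right
        exact ⟨hp.2, (not_le.mp h).le⟩
    calc ∑ p ∈ T.filter (· ∈ B), wt x p
        ≤ ∑ p ∈ ((Finset.range (⌊Y⌋₊ + 1)).filter Nat.Prime) ∪ B.filter (fun p : ℕ => Y ≤ (p : ℝ)),
            wt x p := Finset.sum_le_sum_of_subset_of_nonneg hsplit (fun i _ _ => wt_nonneg x i)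
      _ ≤ ∑ p ∈ (Finset.range (⌊Y⌋₊ + 1)).filter Nat.Prime, wt x p +
            ∑ p ∈ B.filter (fun p : ℕ => Y ≤ (p : ℝ)), wt x p := by
          rw [← Finset.sum_union_inter]
          have : 0 ≤ ∑ p ∈ ((Finset.range (⌊Y⌋₊ + 1)).filter Nat.Prime) ∩
              B.filter (fun p : ℕ => Y ≤ (p : ℝ)), wt x p :=
            Finset.sum_nonneg fun i _ => wt_nonneg x i
          linarith
      _ ≤ (2.72 * (l / 100) + C2) + 2 := by
          apply add_le_add hsm
          calc ∑ p ∈ B.filter (fun p : ℕ => Y ≤ (p : ℝ)), wt x p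
              ≤ ∑ p ∈ B.filter (fun p : ℕ => Y ≤ (p : ℝ)), 2 / √Y := by
                apply Finset.sum_le_sum
                intro p hp
                exact wt_le x Y hx1.le hY1.le p (Finset.mem_filter.mp hp).2
            _ = ((B.filter (fun p : ℕ => Y ≤ (p : ℝ))).card : ℝ) * (2 / √Y) := by
                rw [Finset.sum_const, nsmul_eq_mul]
            _ ≤ √Y * (2 / √Y) := by
                apply mul_le_mul_of_nonneg_right _ (by positivity)
                rw [hsY]
                refine le_trans ?_ hcon.le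
                exact_mod_cast Finset.card_filter_le _ _
            _ = 2 := by
                field_simp
  -- the primes outside `B`
  choose! S hS using hB
  set T' := T.filter (· ∉ B) with hT'
  have hTT : ∑ p ∈ T, wt x p = ∑ p ∈ T.filter (· ∈ B), wt x p + ∑ p ∈ T', wt x p :=
    (Finset.sum_filter_add_sum_filter_not T (· ∈ B) (wt x)).symm
  have hmem : ∀ p ∈ T', p.Prime ∧ (p : ℝ) ≤ X ∧ p ∉ B := by
    intro p hp
    rw [hT', Finset.mem_filter, hT, Finset.mem_filter, Finset.mem_range] at hp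
    refine ⟨hp.1.2, ?_, hp.2⟩
    have h1 : p ≤ ⌊X⌋₊ := by omega
    exact (Nat.le_floor_iff hX0.le).mp h1
  have hS' : ∀ p ∈ T', 2 ≤ (S p).card ∧ ∀ Q ∈ S p, Q.IsPrime ∧ Ideal.absNorm Q = p := by
    intro p hp
    obtain ⟨h1, h2, h3⟩ := hmem p hp
    exact hS p h1 h2 h3
  have hP := hstk F hn x hx1 hx2 (T'.biUnion S) (by
    intro Q hQ
    rw [Finset.mem_biUnion] at hQ
    obtain ⟨p, hp, hQp⟩ := hQ
    obtain ⟨h1, h2⟩ := (hS' p hp).2 Q hQp
    refine ⟨h1, ?_⟩
    rintro rfl
    rw [Ideal.absNorm_bot] at h2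
    exact (hmem p hp).1.ne_zero h2.symm)
  have hdisj : Set.PairwiseDisjoint (T' : Set ℕ) S := by
    intro p hp q hq hpq
    rw [Function.onFun, Finset.disjoint_left]
    intro Q h1 h2
    apply hpq
    rw [← ((hS' p hp).2 Q h1).2, ← ((hS' q hq).2 Q h2).2]
  rw [Finset.sum_biUnion hdisj, hx3] at hP
  have hlow : 2 * ∑ p ∈ T', wt x p ≤
      ∑ p ∈ T', ∑ Q ∈ S p, Real.log (Ideal.absNorm Q) * (Ideal.absNorm Q : ℝ) ^ (-x) := by
    rw [Finset.mul_sum]
    apply Finset.sum_le_sum
    intro p hp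
    obtain ⟨h1, h2⟩ := hS' p hp
    have e : ∀ Q ∈ S p, Real.log (Ideal.absNorm Q) * (Ideal.absNorm Q : ℝ) ^ (-x) = wt x p := by
      intro Q hQ
      rw [(h2 Q hQ).2]
      unfold wt
      rw [if_pos (hmem p hp).1, Real.rpow_neg (Nat.cast_nonneg p), div_eq_mul_inv]
    rw [Finset.sum_congr rfl e, Finset.sum_const, nsmul_eq_mul]
    apply mul_le_mul_of_nonneg_right _ (wt_nonneg x p)
    exact_mod_cast h1
  have hfin : C' * M ≥ (2 * C1 + 2 * C2 + 4) + C3 * M := by
    rw [hC']
    nlinarith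
  have hA' : 20 * (C' * M) ≤ l := by
    have : 20 * C' * M = 20 * (C' * M) := by ring
    linarith
  have hpos : 0 < C' * M := by positivity
  norm_num at ha
  linarith

end Pool.Agent.H514.TR
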