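import Pool.Agent.H514.TR.Stm

/-! # The bound at one scale (the proofs are those of `K1H79.TOR.good_primes`, `K1H79.TOR.scale`, with
`ManyN` in the place of `Many`)

Owner helper514, after helper79. -/

set_option autoImplicit false

namespace Pool.Agent.H514.TR

open NumberField Pointwise Pool.Agent.K1H79.TOR Pool.Agent.TH847.LS Pool.Agent.TH847.LG
open scoped nonZeroDivisors

variable {L : Type} [Field L] [NumberField L]

open Classical in
theorem good_primes [IsGalois ℚ L] {A : ℝ} (hA1 : 1 ≤ A) (hA : ManyN (Nat.card Gal(L/ℚ)) A)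
    (hG : ∀ z ∈ Subgroup.center Gal(L/ℚ), (orderOf z).Prime → Subgroup.closure (Rts z) ≠ ⊤)
    {t t' X : ℝ} (ht : 1 ≤ t)
    (hup : ((Nat.card Gal(L/ℚ) : ℝ) ^ 2 + t) ^ Nat.card Gal(L/ℚ) ≤ t')
    (hgap : ∀ U : Subgroup Gal(L/ℚ), Sm t' U → Sm t U) {R : Subgroup Gal(L/ℚ)} [R.Normal]
    (hR : R ≠ ⊥) (hRt : Sm t R) (hX1 : 1 < X)
    (hX : A * (1 + (Nat.card Gal(L/ℚ) : ℝ) ^ 2 * Real.log (2 * t)) ≤ Real.log X) :
    ∃ (f : ℕ → Ideal (𝓞 L)) (B : Finset ℕ),
      X ^ (1 / 200 : ℝ) ≤ (B.card : ℝ) + (discr L).natAbs.primeFactors.card ∧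
      ∀ p ∈ B, p.Prime ∧ (p : ℝ) ≤ X ∧ ¬ (p : ℤ) ∣ discr L ∧ (f p).IsPrime ∧
        (f p).LiesOver (Ideal.span {(p : ℤ)}) ∧ ¬ R ≤ MulAction.stabilizer Gal(L/ℚ) (f p) := by
  have hl2 : 0 ≤ Real.log (2 * t) := Real.log_nonneg (by linarith)
  have hX0 : 0 < X := by linarith
  have hex : ∀ p : ℕ, ∃ P : Ideal (𝓞 L), p.Prime → P.IsPrime ∧ P.LiesOver (Ideal.span {(p : ℤ)}) := by
    intro p
    by_cases hp : p.Prime
    · have hm := span_prime hp
      obtain ⟨P⟩ : Nonempty (Ideal.primesOver (Ideal.span {(p : ℤ)}) (𝓞 L)) := inferInstance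
      exact ⟨P.1, fun _ => ⟨inferInstance, inferInstance⟩⟩
    · exact ⟨⊥, fun h => absurd h hp⟩
  choose f hf using hex
  obtain ⟨U, hU⟩ : ∃ U : Finset ℕ, U = (Finset.range (⌊X⌋₊ + 1)).filter Nat.Prime := ⟨_, rfl⟩
  have hUm : ∀ p, p ∈ U ↔ p.Prime ∧ (p : ℝ) ≤ X := by
    intro p
    rw [hU, Finset.mem_filter, Finset.mem_range, Nat.lt_succ_iff, Nat.le_floor_iff hX0.le, and_comm]
  obtain ⟨B, hB⟩ : ∃ B : Finset ℕ, B = U.filter (fun p : ℕ => ¬ (p : ℤ) ∣ discr L ∧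
      ¬ R ≤ MulAction.stabilizer Gal(L/ℚ) (f p)) := ⟨_, rfl⟩
  refine ⟨f, B, ?_, ?_⟩
  swap
  · intro p hp
    rw [hB, Finset.mem_filter, hUm] at hp
    obtain ⟨⟨h1, h2⟩, h3, h4⟩ := hp
    exact ⟨h1, h2, h3, (hf p h1).1, (hf p h1).2, h4⟩
  have hD0 : (discr L).natAbs ≠ 0 := Int.natAbs_ne_zero.2 (discr_ne_zero L)
  -- the primes outside of the two sets
  have hout : ∀ p : ℕ, p.Prime → (p : ℝ) ≤ X → p ∉ B ∪ (discr L).natAbs.primeFactors →
      ¬ (p : ℤ) ∣ discr L ∧ R ≤ MulAction.stabilizer Gal(L/ℚ) (f p) := by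
    intro p hp hpX hpB
    rw [Finset.mem_union, not_or] at hpB
    have h1 : ¬ (p : ℤ) ∣ discr L := fun h => hpB.2 (Nat.mem_primeFactors.2
      ⟨hp, Int.natCast_dvd.1 h, hD0⟩)
    refine ⟨h1, ?_⟩
    by_contra h2
    apply hpB.1
    rw [hB, Finset.mem_filter, hUm]
    exact ⟨⟨hp, hpX⟩, h1, h2⟩
  have hcard : ((B ∪ (discr L).natAbs.primeFactors).card : ℝ) ≤
      (B.card : ℝ) + (discr L).natAbs.primeFactors.card := by
    exact_mod_cast Finset.card_union_le _ _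
  refine le_trans ?_ hcard
  by_cases hc : IsCyclic R
  · obtain ⟨H, hHn, hHt, hRH, hH⟩ := grp hG R hR hc
    have hSH : Sm t H := hgap _ ((hRt.up ht hRH).mono hup)
    let F := (FixedPoints.intermediateField H : IntermediateField ℚ L)
    have hgal : IsGaloisGroup H F L := inferInstance
    have hdis := hSH.disc_sub F
    have hdeg : 2 ≤ Module.finrank ℚ F ∧ Module.finrank ℚ F ≤ Nat.card Gal(L/ℚ) := by
      have e1 := Module.finrank_mul_finrank ℚ F L
      have e2 : Module.finrank F L = Nat.card H := (IsGaloisGroup.card_eq_finrank H F L).symm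
      have e3 : Module.finrank ℚ L = Nat.card Gal(L/ℚ) := (IsGaloisGroup.card_eq_finrank _ ℚ L).symm
      rw [e2, e3] at e1
      have hpos : 0 < Nat.card H := Nat.card_pos
      have hne : Nat.card H ≠ Nat.card Gal(L/ℚ) := fun h => hHt (Subgroup.eq_top_of_card_eq H h)
      have hG0 : 0 < Nat.card Gal(L/ℚ) := Nat.card_pos
      constructor
      · rcases Nat.lt_or_ge (Module.finrank ℚ F) 2 with h | h
        · interval_cases h5 : Module.finrank ℚ F
          · rw [zero_mul] at e1; omega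
          · rw [one_mul] at e1; exact absurd e1 hne
        · exact h
      · rw [← e1]
        exact Nat.le_mul_of_pos_right _ hpos
    refine hA F hdeg.2 X hX1 ?_ _ ?_
    · refine le_trans ?_ hX
      have h1 : Real.log |(discr F : ℝ)| ≤ (Nat.card Gal(L/ℚ) : ℝ) ^ 2 * Real.log (2 * t) := by
        have h2 : 0 < |(discr F : ℝ)| := abs_pos.2 (by exact_mod_cast discr_ne_zero F)
        refine (Real.log_le_log h2 hdis).trans ?_
        rw [Real.log_pow]
        refine mul_le_mul_of_nonneg_right ?_ hl2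
        have h3 : Module.finrank ℚ F * (Module.finrank ℚ F - 1) ≤ Nat.card Gal(L/ℚ) ^ 2 := by
          rw [sq]
          exact Nat.mul_le_mul hdeg.2 ((Nat.sub_le _ _).trans hdeg.2)
        exact_mod_cast h3
      have hA0 : 0 ≤ A := by linarith
      gcongr
    · intro p hp hpX hpB
      obtain ⟨h1, h2⟩ := hout p hp hpX hpB
      have hP1 := (hf p hp).1
      have hP2 := (hf p hp).2
      have hcy := stab_cyclic hp h1 (f p)
      obtain ⟨⟨g, hg⟩, hgen⟩ := hcy.exists_generator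
      have hst : MulAction.stabilizer Gal(L/ℚ) (f p) = Subgroup.zpowers g := by
        apply le_antisymm
        · intro x hx
          obtain ⟨k, hk⟩ := Subgroup.mem_zpowers_iff.1 (hgen ⟨x, hx⟩)
          exact Subgroup.mem_zpowers_iff.2 ⟨k, congrArg Subtype.val hk⟩
        · exact Subgroup.zpowers_le.2 hg
      have hgH : g ∈ H := hH g (by rw [← hst]; exact h2)
      obtain ⟨S, hS1, hS2⟩ := split (V := H) F hp (f p) (by
        rw [hst, Subgroup.zpowers_le]; exact hgH)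
      exact ⟨S, by rw [hS1]; exact hdeg.1, hS2⟩
  · refine hA ℚ (by rw [Module.finrank_self]; exact Nat.card_pos) X hX1 ?_ _ ?_
    · rw [Rat.numberField_discr, Int.cast_one, abs_one, Real.log_one, add_zero]
      refine le_trans ?_ hX
      have hA0 : 0 ≤ A := by linarith
      have : 0 ≤ (Nat.card Gal(L/ℚ) : ℝ) ^ 2 * Real.log (2 * t) := by positivity
      gcongr
      linarith
    · intro p hp hpX hpB
      obtain ⟨h1, h2⟩ := hout p hp hpX hpB
      have hP1 := (hf p hp).1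
      have hP2 := (hf p hp).2
      have hcy := stab_cyclic hp h1 (f p)
      exfalso
      apply hc
      exact isCyclic_of_injective (Subgroup.inclusion h2) (Subgroup.inclusion_injective h2)

theorem scale [IsGalois ℚ L] {n : ℕ} (hn : Module.finrank ℚ L = n) {A : ℝ} (hA1 : 1 ≤ A) (hA : ManyN n A)
    (hG : ∀ z ∈ Subgroup.center Gal(L/ℚ), (orderOf z).Prime → Subgroup.closure (Rts z) ≠ ⊤)
    {l : ℕ} (hl : 1 ≤ l) {t t' X : ℝ} (ht : 1 ≤ t) (h1 : ((n : ℝ) + 1) * t ≤ t')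
    (hup : ((n : ℝ) ^ 2 + t) ^ n ≤ t')
    (hgap : ∀ U : Subgroup Gal(L/ℚ), Sm t' U → Sm t U)
    (hD : (2 * t') ^ (n * (n - 1)) < |(discr L : ℝ)|) (hX1 : 1 < X)
    (hX : A * (1 + (n : ℝ) ^ 2 * Real.log (2 * t)) ≤ Real.log X)
    (hXt : ((150 * X) ^ l) ^ n ≤ t') (N : ℕ) (hN : 2 ^ n * √|(discr L : ℝ)| < N) :
    (X ^ (1 / 200 : ℝ) - (discr L).natAbs.primeFactors.card) *
      (Nat.card {c : ClassGroup (𝓞 L) // c ^ l = 1} : ℝ) ≤
      2 ^ n * ∑ J ∈ FI L N, (1 + Real.log ((N : ℝ) / Ideal.absNorm J)) ^ n := by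
  classical
  have hnG : Nat.card Gal(L/ℚ) = n := by rw [← hn]; exact IsGaloisGroup.card_eq_finrank _ ℚ L
  have hn0 : 0 < n := by rw [← hnG]; exact Nat.card_pos
  have htt' : t ≤ t' := by
    refine le_trans ?_ h1
    have : (0 : ℝ) ≤ n := Nat.cast_nonneg n
    nlinarith
  obtain ⟨R, hRn, hRt, hRU⟩ := core (L := L) ht (by rw [hnG]; exact h1) hgap
  have hR : R ≠ ⊥ := by
    rintro rfl
    have h2 := (hRt.mono htt').disc
    rw [hn] at h2
    linarith
  obtain ⟨f, B, hB1, hB2⟩ := good_primes hA1 (by rw [hnG]; exact hA) hG ht (by rw [hnG]; exact hup) hgap hR hRt hX1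
    (by rw [hnG]; exact hX)
  set W := ∑ J ∈ FI L N, (1 + Real.log ((N : ℝ) / Ideal.absNorm J)) ^ n with hW
  set T : ℝ := (Nat.card {c : ClassGroup (𝓞 L) // c ^ l = 1} : ℝ) with hT
  have hT0 : 0 ≤ T := Nat.cast_nonneg _
  -- one decomposition group
  have key : ∀ U : Subgroup Gal(L/ℚ),
      ((B.filter fun p => MulAction.stabilizer Gal(L/ℚ) (f p) = U).card : ℝ) * T ≤ W := by
    intro U
    obtain ⟨BU, hBU⟩ : ∃ BU : Finset ℕ, BU = B.filter fun p => MulAction.stabilizer Gal(L/ℚ) (f p) = U :=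
      ⟨_, rfl⟩
    rw [← hBU]
    have hm : ∀ p : {p // p ∈ BU}, p.1 ∈ B ∧ MulAction.stabilizer Gal(L/ℚ) (f p.1) = U := by
      rintro ⟨p, hp⟩
      rw [hBU, Finset.mem_filter] at hp
      exact hp
    have hc : ∀ p : {p // p ∈ BU}, f p.1 ≠ ⊥ ∧ ∃ J : Ideal (𝓞 L), J ≠ ⊥ ∧
        f p.1 * J = Ideal.span {((p.1 : ℕ) : 𝓞 L)} ∧
        Ideal.absNorm (f p.1) = p.1 ^ Nat.card U ∧ Ideal.absNorm J = p.1 ^ (n - Nat.card U) := by
      intro p
      obtain ⟨h3, h4⟩ := hm p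
      obtain ⟨h5, -, h6, h7, h8, -⟩ := hB2 p.1 h3
      have h9 := cof hn h5 h6 (f p.1) h7 h8
      rw [h4] at h9
      exact h9
    choose hf0 J hJ0 hJ1 hJ2 hJ3 using hc
    have hcardU : Nat.card U ≤ n := by
      rw [← hnG]
      exact Nat.card_le_card_of_injective _ (Subgroup.subtype_injective _)
    refine ev_m hcardU hn hl N hN BU (fun p => ⟨f p.1, mem_nonZeroDivisors_of_ne_zero (hf0 p)⟩)
      (fun p => ⟨J p, mem_nonZeroDivisors_of_ne_zero (hJ0 p)⟩)
      (fun p => ⟨(hB2 p.1 (hm p).1).1, hJ1 p, hJ2 p, hJ3 p⟩) ?_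
    intro p q hpq z hz0 hz hw
    have hpB := hB2 p.1 (hm p).1
    have hqB := hB2 q.1 (hm q).1
    have hqP := hqB.2.2.2.1
    have hqL := hqB.2.2.2.2.1
    have hmax : ((max p.1 q.1 : ℕ) : ℝ) ≤ X := by
      push_cast
      exact max_le hpB.2.1 hqB.2.1
    have hsm : Sm (((150 * X) ^ l) ^ Nat.card Gal(L/ℚ)) U := by
      refine sep hl hpB.1 hqB.1 (fun h => hpq (Subtype.ext h)) (P := f p.1) (Q := f q.1) (J := J p)
        (hf0 p) (mem_of_over (p := q.1) (f q.1)) ?_ ?_ (hJ1 p) hz (B := (150 * X) ^ l) ?_ ?_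
      · intro g hg
        rw [← (hm p).2] at hg
        exact hg
      · intro g
        rw [← (hm q).2]
        exact Iff.rfl
      · exact one_le_pow₀ (by linarith)
      · intro w
        refine (hw w).trans ?_
        gcongr
    rw [hnG] at hsm
    have h10 := hRU U (hsm.mono hXt)
    apply hpB.2.2.2.2.2
    rw [(hm p).2]
    exact h10
  have : Fintype (Subgroup Gal(L/ℚ)) := Fintype.ofFinite _
  have : Fintype Gal(L/ℚ) := Fintype.ofFinite _
  have hsum : (B.card : ℝ) = ∑ U : Subgroup Gal(L/ℚ),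
      ((B.filter fun p => MulAction.stabilizer Gal(L/ℚ) (f p) = U).card : ℝ) := by
    have h3 := Finset.card_eq_sum_card_fiberwise (s := B) (t := Finset.univ)
      (f := fun p => MulAction.stabilizer Gal(L/ℚ) (f p)) (fun _ _ => Finset.mem_univ _)
    exact_mod_cast h3
  have hW0 : 0 ≤ W := le_trans (mul_nonneg (Nat.cast_nonneg _) hT0) (key ⊥)
  have hfin : (B.card : ℝ) * T ≤ 2 ^ n * W := by
    rw [hsum, Finset.sum_mul]
    refine (Finset.sum_le_sum fun U _ => key U).trans ?_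
    rw [Finset.sum_const, Finset.card_univ, nsmul_eq_mul]
    have h2 : Fintype.card (Subgroup Gal(L/ℚ)) ≤ 2 ^ n := by
      rw [← hnG, Nat.card_eq_fintype_card, ← Fintype.card_set]
      exact Fintype.card_le_of_injective (fun U : Subgroup Gal(L/ℚ) => (U : Set Gal(L/ℚ)))
        SetLike.coe_injective
    have h3 : (Fintype.card (Subgroup Gal(L/ℚ)) : ℝ) ≤ 2 ^ n := by exact_mod_cast h2
    gcongr
  refine le_trans ?_ hfin
  refine mul_le_mul_of_nonneg_right ?_ hT0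
  linarith


theorem t_SCALE : S_SCALE := by
  intro L _ _ _ n hn A hA1 hA hG l hl t t' X ht h1 hup hgap hD hX1 hX hXt N hN
  exact scale hn hA1 hA hG hl ht h1 hup hgap hD hX1 hX hXt N hN

end Pool.Agent.H514.TR
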