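import Pool.Agent.H514.TR.Stm

/-! # Task STK: the sum over the primes of a number field for real `x` near `1` (helper163) -/

set_option autoImplicit false

namespace Pool.Agent.H514.TR

open NumberField Pointwise Pool.Agent.K1H79.TOR Pool.Agent.TH847.LS
open scoped Classical nonZeroDivisors

namespace STK163

theorem one_le_absdiscr (F : Type) [Field F] [NumberField F] : (1 : ℝ) ≤ |(discr F : ℝ)| := by
  have h : (1 : ℤ) ≤ |discr F| := Int.one_le_abs (NumberField.discr_ne_zero F)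
  have h2 : ((1 : ℤ) : ℝ) ≤ ((|discr F| : ℤ) : ℝ) := Int.cast_le.2 h
  rwa [Int.cast_one, Int.cast_abs] at h2

end STK163

theorem t_STKof : S_STKof := by
  intro hZB hLAN hLDS n
  obtain ⟨C0, A0, hC0, hA0, hg⟩ := hZB n
  obtain ⟨K, hK, hL⟩ := hLAN
  refine ⟨max 1 (K * (2 + |Real.log C0| + A0)), le_max_left _ _, ?_⟩
  intro F _ _ hF x hx1 hx2 P hP
  obtain ⟨g, hgd, hgs, -, hgb⟩ := hg F hF
  obtain ⟨h1, h2, h3⟩ := hLDS F g hgd hgs
  have hD : (1 : ℝ) ≤ |(discr F : ℝ)| := STK163.one_le_absdiscr F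
  have hD0 : (0 : ℝ) < |(discr F : ℝ)| := by linarith
  set l := Real.log |(discr F : ℝ)| with hl'
  have hl : 0 ≤ l := Real.log_nonneg hD
  have hab : 0 ≤ |Real.log C0| := abs_nonneg _
  have hAl : 0 ≤ A0 * l := mul_nonneg hA0.le hl
  set M : ℝ := 2 + |Real.log C0| + A0 * l with hM
  have hM1 : 1 ≤ M := by linarith
  have e1 : C0 * |(discr F : ℝ)| ^ A0 ≤ Real.exp M := by
    have e : C0 * |(discr F : ℝ)| ^ A0 = Real.exp (Real.log C0 + A0 * l) := by
      rw [Real.exp_add, Real.exp_log hC0, Real.rpow_def_of_pos hD0, mul_comm A0 l]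
    rw [e]
    apply Real.exp_le_exp.2
    have := le_abs_self (Real.log C0)
    linarith
  have e2 : Real.exp (-M) ≤ ‖g (7 / 6)‖ := by
    have h4 := h2 (7 / 6) (by norm_num)
    have h5 : (((7 / 6 : ℝ) : ℝ) : ℂ) = 7 / 6 := by
      push_cast
      rfl
    rw [h5] at h4
    refine le_trans ?_ h4
    have h6 : Real.exp (-M) ≤ Real.exp (-2) := Real.exp_le_exp.2 (by linarith)
    have h7 : (6 : ℝ) ≤ Real.exp 2 := by
      have h8 : (2.7 : ℝ) ≤ Real.exp 1 := by
        have := Real.exp_one_gt_d9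
        linarith
      have h9 : Real.exp 2 = Real.exp 1 * Real.exp 1 := by
        rw [← Real.exp_add]
        norm_num
      rw [h9]
      nlinarith
    have h10 : Real.exp (-2) ≤ 1 / 6 := by
      rw [Real.exp_neg, ← one_div]
      exact one_div_le_one_div_of_le (by norm_num) h7
    refine h6.trans (h10.trans ?_)
    norm_num
  have h4 := hL g M hM1 hgd (fun s hs => (hgb s hs).trans e1) h1 e2 x hx1 hx2
  have h5 := h3 x hx1 P hP
  have h6 : K * M ≤ max 1 (K * (2 + |Real.log C0| + A0)) * (1 + l) := by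
    have h7 : K * (2 + |Real.log C0| + A0) ≤ max 1 (K * (2 + |Real.log C0| + A0)) := le_max_right _ _
    have h8 : M ≤ (2 + |Real.log C0| + A0) * (1 + l) := by
      have h9 : 0 ≤ |Real.log C0| * l := mul_nonneg hab hl
      rw [hM]
      nlinarith
    calc K * M ≤ K * ((2 + |Real.log C0| + A0) * (1 + l)) := mul_le_mul_of_nonneg_left h8 hK.le
      _ = K * (2 + |Real.log C0| + A0) * (1 + l) := by ring
      _ ≤ _ := mul_le_mul_of_nonneg_right h7 (by linarith)
  linarith

end Pool.Agent.H514.TR
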