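import Pool.Agent.H514.TR.MAIN
import Pool.Agent.H514.TR.SCALE
import Pool.Agent.H514.TR.BCD
import Pool.Agent.H514.TR.FAC
import Pool.Agent.H514.TR.LAN
import Pool.Agent.H514.TR.LDS
import Pool.Agent.H514.TR.STK
import Pool.Agent.H514.TR.MANY
import Pool.Agent.H514.TR.GAL
import Pool.Agent.H514.GE.ZB

/-! # Assembly

Owner helper514. -/

set_option autoImplicit false

namespace Pool.Agent.H514.TR

theorem g_MANY : S_MANY := t_MANYof (t_STKof Pool.Agent.H514.GE.t_ZB (t_LANof t_FAC t_BCD) t_LDS)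

theorem g_GAL : S_GAL := t_GALof g_MANY t_SCALE t_CLT

end Pool.Agent.H514.TR
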