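import Pool.Agent.H514.TR.Stm

/-! # Groups which satisfy the condition

Owner helper514. -/

set_option autoImplicit false

namespace Pool.Agent.H514.TR

open Pool.Agent.K1H79.TOR

/-- invariance under isomorphism -/
theorem GrpC.equiv {G H : Type} [Group G] [Group H] (e : G ≃* H) (h : GrpC G) : GrpC H := by
  intro z hz ho hcl
  apply h (e.symm z)
  · rw [Subgroup.mem_center_iff] at hz ⊢
    intro g
    apply e.injective
    rw [map_mul, map_mul, e.apply_symm_apply]
    exact hz (e g)
  · rwa [← MulEquiv.orderOf_eq e.symm z] at ho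
  · have h1 : (Subgroup.closure (Rts (e.symm z))).map e.toMonoidHom = ⊤ := by
      rw [MonoidHom.map_closure, ← hcl]
      congr 1
      ext x
      constructor
      · rintro ⟨g, hg, rfl⟩
        have hg' : e.symm z ∈ Subgroup.zpowers g := hg
        obtain ⟨k, hk⟩ := Subgroup.mem_zpowers_iff.1 hg'
        refine Subgroup.mem_zpowers_iff.2 ⟨k, ?_⟩
        change e g ^ k = z
        rw [← map_zpow, hk, e.apply_symm_apply]
      · intro hx
        have hx' : z ∈ Subgroup.zpowers x := hx
        obtain ⟨k, hk⟩ := Subgroup.mem_zpowers_iff.1 hx'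
        refine ⟨e.symm x, Subgroup.mem_zpowers_iff.2 ⟨k, ?_⟩, e.apply_symm_apply x⟩
        rw [← map_zpow, hk]
    rw [eq_top_iff]
    intro g _
    have h2 : e g ∈ (Subgroup.closure (Rts (e.symm z))).map e.toMonoidHom := by
      rw [h1]; exact Subgroup.mem_top _
    obtain ⟨g', hg', he⟩ := h2
    have : g' = g := e.injective he
    rwa [this] at hg'

/-- groups with trivial centre -/
theorem grpC_of_center {G : Type} [Group G] (h : Subgroup.center G = ⊥) : GrpC G := by
  intro z hz ho
  exfalso
  rw [h, Subgroup.mem_bot] at hz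
  rw [hz, orderOf_one] at ho
  exact Nat.not_prime_one ho

/-- groups of prime exponent which are not cyclic -/
theorem grpC_of_exponent {G : Type} [Group G] {p : ℕ} (hp : p.Prime) (hG : ∀ g : G, g ^ p = 1)
    (hc : ¬ IsCyclic G) : GrpC G := by
  intro z _ ho htop
  apply hc
  refine ⟨z, fun x => ?_⟩
  have h1 : Subgroup.closure (Rts z) ≤ Subgroup.zpowers z := by
    rw [Subgroup.closure_le]
    intro g hg
    have hg' : z ∈ Subgroup.zpowers g := hg
    have hz1 : z ≠ 1 := by
      intro h
      rw [h, orderOf_one] at ho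
      exact Nat.not_prime_one ho
    have hg1 : g ≠ 1 := by
      intro h
      rw [h, Subgroup.zpowers_one_eq_bot, Subgroup.mem_bot] at hg'
      exact hz1 hg'
    have hog : orderOf g = p := orderOf_eq_prime (hG g) hg1 (hp := ⟨hp⟩)
    have hoz : orderOf z = p := orderOf_eq_prime (hG z) hz1 (hp := ⟨hp⟩)
    have hle : Subgroup.zpowers z ≤ Subgroup.zpowers g := Subgroup.zpowers_le.2 hg'
    have hfin : Finite (Subgroup.zpowers g) := Nat.finite_of_card_ne_zero (by
      rw [Nat.card_zpowers, hog]; exact hp.ne_zero)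
    have heq : Subgroup.zpowers z = Subgroup.zpowers g := by
      refine Subgroup.eq_of_le_of_card_ge hle ?_
      rw [Nat.card_zpowers, Nat.card_zpowers, hog, hoz]
    rw [heq]
    exact Subgroup.mem_zpowers g
  exact h1 (by rw [htop]; exact Subgroup.mem_top x)

/-- dihedral groups -/
theorem grpC_dihedral {m : ℕ} (hm : 3 ≤ m) : GrpC (DihedralGroup m) := by
  intro z hz ho htop
  have hz1 : z ≠ 1 := by
    intro h
    rw [h, orderOf_one] at ho
    exact Nat.not_prime_one ho
  have h2 : (2 : ZMod m) ≠ 0 := by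
    intro h
    have : ((2 : ℕ) : ZMod m) = 0 := by exact_mod_cast h
    rw [ZMod.natCast_eq_zero_iff] at this
    exact absurd (Nat.le_of_dvd (by norm_num) this) (by omega)
  rw [Subgroup.mem_center_iff] at hz
  obtain ⟨i, rfl⟩ : ∃ i : ZMod m, z = DihedralGroup.r i := by
    rcases z with i | i
    · exact ⟨i, rfl⟩
    · exfalso
      have h3 := hz (DihedralGroup.r 1)
      rw [DihedralGroup.r_mul_sr, DihedralGroup.sr_mul_r] at h3
      have h4 : i - 1 = i + 1 := DihedralGroup.sr.inj h3
      apply h2
      linear_combination -h4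
  have h1 : Subgroup.closure (Rts (DihedralGroup.r i)) ≤ Subgroup.zpowers (DihedralGroup.r (1 : ZMod m)) := by
    rw [Subgroup.closure_le]
    intro g hg
    have hg' : DihedralGroup.r i ∈ Subgroup.zpowers g := hg
    rcases g with j | j
    · refine Subgroup.mem_zpowers_iff.2 ⟨(j.val : ℤ), ?_⟩
      have : NeZero m := ⟨by omega⟩
      rw [zpow_natCast, DihedralGroup.r_one_pow, ZMod.natCast_zmod_val]
    · exfalso
      obtain ⟨k, hk⟩ := Subgroup.mem_zpowers_iff.1 hg'
      have h5 : (DihedralGroup.sr j : DihedralGroup m) ^ 2 = 1 := by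
        rw [sq, DihedralGroup.sr_mul_self]
      rcases Int.even_or_odd' k with ⟨q, rfl | rfl⟩
      · rw [zpow_mul, zpow_ofNat, h5, one_zpow] at hk
        exact hz1 hk.symm
      · rw [zpow_add, zpow_mul, zpow_ofNat, h5, one_zpow, one_mul, zpow_one] at hk
        exact absurd hk (by simp)
  have h6 : (DihedralGroup.sr (0 : ZMod m)) ∈ Subgroup.zpowers (DihedralGroup.r (1 : ZMod m)) :=
    h1 (by rw [htop]; exact Subgroup.mem_top _)
  obtain ⟨k, hk⟩ := Subgroup.mem_zpowers_iff.1 h6
  rw [DihedralGroup.r_one_zpow] at hk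
  exact absurd hk (by simp)

end Pool.Agent.H514.TR
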